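import Mathlib

set_option autoImplicit false

namespace Pool.Agent.Results.MP_81a968_lc.LowIsoGeneric

open Nat.Partrec (Code)
open Nat.Partrec.Code

/-! ### Definitions used in the statement -/

/-- The characteristic function of a set of natural numbers (given by `X : ℕ → Bool`). -/
def chi (X : ℕ → Bool) : ℕ → ℕ := fun n => bif X n then 1 else 0

/-- The Turing degree of a total function. -/
def degree (f : ℕ → ℕ) : TuringDegree :=
  toAntisymmetrization TuringReducible (fun n => Part.some (f n) : ℕ →. ℕ)

/-- The initial segment of length `n` of an infinite sequence. -/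
def seg {α : Type} (X : ℕ → α) (n : ℕ) : List α := (List.range n).map X

/-- `G` is 1-generic: for every c.e. set `W` of strings, some initial segment of `G` is in `W` or
some initial segment of `G` has no extension in `W`. -/
def OneGeneric (G : ℕ → Bool) : Prop :=
  ∀ W : Set (List Bool), REPred (fun σ => σ ∈ W) →
    (∃ n, seg G n ∈ W) ∨ (∃ n, ∀ τ ∈ W, ¬ seg G n <+: τ)

/-- `S` is a `Σ⁰₂` set of strings. -/
def IsSigma02 (S : Set (List Bool)) : Prop :=
  ∃ R : List Bool × ℕ × ℕ → Bool, Computable R ∧ ∀ σ, σ ∈ S ↔ ∃ a, ∀ b, R (σ, a, b) = true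

/-- `S` is a dense set of strings. -/
def IsDense (S : Set (List Bool)) : Prop := ∀ σ, ∃ τ ∈ S, σ <+: τ

/-- `G` is weakly 2-generic: it meets every dense `Σ⁰₂` set of strings. -/
def WeaklyTwoGeneric (G : ℕ → Bool) : Prop :=
  ∀ S : Set (List Bool), IsSigma02 S → IsDense S → ∃ n, seg G n ∈ S

/-- A computable first-order language: relation symbols and function symbols (constants are
function symbols of arity zero) are numbered by computable sets of natural numbers, with computable
arities. -/
structure Lang where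
  isRel : ℕ → Bool
  isFun : ℕ → Bool
  relAr : ℕ → ℕ
  funAr : ℕ → ℕ
  isRel_comp : Computable isRel
  isFun_comp : Computable isFun
  relAr_comp : Computable relAr
  funAr_comp : Computable funAr

/-- A computable structure for the language `L`: the universe `{x | U x = true}` is a computable set
of natural numbers, and the relations `R i` and the functions `F i` are uniformly computable. Only
symbols of `L` and tuples of elements of the universe of the right length matter. -/
structure CStr (L : Lang) where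
  U : ℕ → Bool
  R : ℕ → List ℕ → Bool
  F : ℕ → List ℕ → ℕ
  U_comp : Computable U
  R_comp : Computable₂ R
  F_comp : Computable₂ F
  closed : ∀ i xs, L.isFun i = true → xs.length = L.funAr i → (∀ x ∈ xs, U x = true) →
    U (F i xs) = true

/-- `f` (restricted to the universe of `A`) is an isomorphism of `A` onto `B`. -/
structure IsIso {L : Lang} (A B : CStr L) (f : ℕ → ℕ) : Prop where
  maps : ∀ x, A.U x = true → B.U (f x) = true
  inj : ∀ x y, A.U x = true → A.U y = true → f x = f y → x = y
  surj : ∀ y, B.U y = true → ∃ x, A.U x = true ∧ f x = y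
  rel : ∀ i xs, L.isRel i = true → xs.length = L.relAr i → (∀ x ∈ xs, A.U x = true) →
    A.R i xs = B.R i (xs.map f)
  func : ∀ i xs, L.isFun i = true → xs.length = L.funAr i → (∀ x ∈ xs, A.U x = true) →
    f (A.F i xs) = B.F i (xs.map f)

/-- The degree `d` is low for isomorphism. -/
def LowForIsomorphism (d : TuringDegree) : Prop :=
  ∀ (L : Lang) (A B : CStr L), (∃ f, IsIso A B f ∧ degree f ≤ d) →
    ∃ f, IsIso A B f ∧ Computable f

/-! ### Bounded quantifiers, search, boolean combinators -/

/-- bounded universal quantifier -/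
def ball (n : ℕ) (q : ℕ → Bool) : Bool :=
  Nat.rec (motive := fun _ => Bool) true (fun k acc => acc && q k) n

theorem ball_iff (n : ℕ) (q : ℕ → Bool) : ball n q = true ↔ ∀ k < n, q k = true := by
  induction n with
  | zero => simp [ball]
  | succ n ih =>
    have : ball (n + 1) q = (ball n q && q n) := rfl
    rw [this, Bool.and_eq_true, ih]
    constructor
    · rintro ⟨h1, h2⟩ k hk
      rcases Nat.lt_succ_iff_lt_or_eq.1 hk with h | h
      · exact h1 k h
      · exact h ▸ h2
    · intro h
      exact ⟨fun k hk => h k (Nat.lt_succ_of_lt hk), h n (Nat.lt_succ_self n)⟩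

/-- bounded existential quantifier -/
def bex (n : ℕ) (q : ℕ → Bool) : Bool := !(ball n fun k => !(q k))

theorem bex_iff (n : ℕ) (q : ℕ → Bool) : bex n q = true ↔ ∃ k < n, q k = true := by
  unfold bex
  rw [Bool.not_eq_true', ← Bool.not_eq_true, ball_iff]
  push Not
  simp

section combinators

variable {α : Type} [Primcodable α]

theorem ball_comp {g : α → ℕ} {q : α → ℕ → Bool}
    (hg : Computable g) (hq : Computable₂ q) : Computable fun a => ball (g a) (q a) := by
  have h1 : Computable fun p : α × ℕ × Bool => p.2.2 := Computable.snd.comp Computable.snd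
  have h2 : Computable fun p : α × ℕ × Bool => q p.1 p.2.1 :=
    hq.comp Computable.fst (Computable.fst.comp Computable.snd)
  have h3 : Computable₂ fun (a : α) (p : ℕ × Bool) => p.2 && q a p.1 :=
    (Primrec.and.to_comp.comp h1 h2).to₂
  exact (Computable.nat_rec hg (Computable.const true) h3).of_eq fun a => rfl

theorem search {q : α → ℕ → Bool} (hq : Computable₂ q)
    (H : ∀ a, ∃ n, q a n = true) : ∃ F : α → ℕ, Computable F ∧ ∀ a, q a (F a) = true := by
  classical
  have hP : ComputablePred (fun p : α × ℕ => q p.1 p.2 = true) :=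
    Computable.computablePred (by
      have : Computable fun p : α × ℕ => q p.1 p.2 := hq
      simpa using this)
  exact ⟨_, Computable.find (P := fun a n => q a n = true) hP H, fun a => Nat.find_spec (H a)⟩

theorem cand {f g : α → Bool} (hf : Computable f) (hg : Computable g) :
    Computable fun a => f a && g a := Primrec.and.to_comp.comp hf hg

theorem cor {f g : α → Bool} (hf : Computable f) (hg : Computable g) :
    Computable fun a => f a || g a := Primrec.or.to_comp.comp hf hg

theorem cnot {f : α → Bool} (hf : Computable f) : Computable fun a => !(f a) :=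
  Primrec.not.to_comp.comp hf

theorem bex_comp {g : α → ℕ} {q : α → ℕ → Bool}
    (hg : Computable g) (hq : Computable₂ q) : Computable fun a => bex (g a) (q a) :=
  cnot (ball_comp hg (cnot hq).to₂)

theorem cbeqN {f g : α → ℕ} (hf : Computable f) (hg : Computable g) :
    Computable fun a => (f a == g a) := by
  have : Primrec₂ fun m n : ℕ => (m == n) := Primrec.beq
  exact this.to_comp.comp hf hg

theorem cbeqB {f g : α → Bool} (hf : Computable f) (hg : Computable g) :
    Computable fun a => (f a == g a) := by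
  have : Primrec₂ fun m n : Bool => (m == n) := Primrec.beq
  exact this.to_comp.comp hf hg

theorem ceqO {f g : α → Option ℕ} (hf : Computable f) (hg : Computable g) :
    Computable fun a => decide (f a = g a) := by
  have : Primrec₂ fun m n : Option ℕ => decide (m = n) := Primrec.eq.decide
  exact this.to_comp.comp hf hg

theorem cpair {f g : α → ℕ} (hf : Computable f) (hg : Computable g) :
    Computable fun a => Nat.pair (f a) (g a) := Primrec₂.natPair.to_comp.comp hf hg

theorem clt {f g : α → ℕ} (hf : Computable f) (hg : Computable g) :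
    Computable fun a => decide (f a < g a) := by
  have : Primrec₂ fun m n : ℕ => decide (m < n) := Primrec.nat_lt.decide
  exact this.to_comp.comp hf hg

end combinators

/-! ### Initial segments -/

theorem seg_length {α : Type} (X : ℕ → α) (n : ℕ) : (seg X n).length = n := by simp [seg]

theorem seg_succ {α : Type} (X : ℕ → α) (n : ℕ) : seg X (n + 1) = seg X n ++ [X n] := by
  simp [seg, List.range_succ]

theorem seg_get {α : Type} (X : ℕ → α) {n k : ℕ} (h : k < n) : (seg X n)[k]? = some (X k) := by
  simp [seg, h]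

theorem seg_mono {α : Type} (X : ℕ → α) {m n : ℕ} (h : m ≤ n) : seg X m <+: seg X n := by
  induction n with
  | zero => rw [Nat.le_zero.1 h]
  | succ n ih =>
    rcases Nat.lt_or_eq_of_le h with h' | rfl
    · rw [seg_succ]
      exact (ih (Nat.lt_succ_iff.1 h')).trans (List.prefix_append _ _)
    · exact List.prefix_rfl

/-! ### Representation of functions recursive in a set by computable monotone functionals -/

/-- `F` is a monotone functional computing `g` from the oracle `X` -/
def Comp1 (X : ℕ → Bool) (F : List Bool → ℕ →. ℕ) (g : ℕ →. ℕ) : Prop :=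
  Partrec₂ F ∧ (∀ σ τ n y, σ <+: τ → y ∈ F σ n → y ∈ F τ n) ∧
    ∀ n y, y ∈ g n ↔ ∃ k, y ∈ F (seg X k) n

theorem comp1_pure (X : ℕ → Bool) {g : ℕ →. ℕ} (hg : Partrec g) :
    Comp1 X (fun _ n => g n) g :=
  ⟨hg.comp Computable.snd, fun _ _ _ _ _ h => h, fun _ _ => ⟨fun h => ⟨0, h⟩, fun ⟨_, h⟩ => h⟩⟩

theorem comp1_oracle (X : ℕ → Bool) : ∃ F, Comp1 X F (fun n => Part.some (chi X n)) := by
  refine ⟨fun σ n => (((σ[n]?).map (fun b => bif b then 1 else 0) : Option ℕ) : Part ℕ),
    ?_, ?_, ?_⟩
  · have h1 : Computable fun p : List Bool × ℕ =>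
        ((p.1[p.2]?).map (fun b => bif b then 1 else 0) : Option ℕ) := by
      refine Computable.option_map (Computable.list_getElem?.comp Computable.fst
        Computable.snd) ?_
      exact (Computable.cond Computable.snd (Computable.const 1) (Computable.const 0)).to₂
    exact h1.ofOption.to₂
  · intro σ τ n y h hy
    rw [Part.mem_coe, Option.mem_def, Option.map_eq_some_iff] at hy ⊢
    obtain ⟨b, hb, rfl⟩ := hy
    refine ⟨b, ?_, rfl⟩
    obtain ⟨ρ, rfl⟩ := h
    have hn : n < σ.length := (List.getElem?_eq_some_iff.1 hb).1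
    rw [List.getElem?_append_left hn, hb]
  · intro n y
    constructor
    · intro hy
      refine ⟨n + 1, ?_⟩
      have hy' : y = chi X n := by simpa using hy
      rw [Part.mem_coe, Option.mem_def, Option.map_eq_some_iff]
      exact ⟨X n, seg_get X (Nat.lt_succ_self n), hy'.symm⟩
    · rintro ⟨k, hk⟩
      rw [Part.mem_coe, Option.mem_def, Option.map_eq_some_iff] at hk
      obtain ⟨b, hb, rfl⟩ := hk
      have hn : n < k := by
        have := (List.getElem?_eq_some_iff.1 hb).1
        rwa [seg_length] at this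
      rw [seg_get X hn] at hb
      have := Option.some.inj hb
      subst this
      exact Part.mem_some _

theorem comp1_pair (X : ℕ → Bool) {f h : ℕ →. ℕ} (ihf : ∃ F, Comp1 X F f)
    (ihh : ∃ F, Comp1 X F h) :
    ∃ F, Comp1 X F (fun n => (f n).bind fun a => (h n).map fun b => Nat.pair a b) := by
  obtain ⟨F1, h1, m1, e1⟩ := ihf
  obtain ⟨F2, h2, m2, e2⟩ := ihh
  refine ⟨fun σ n => (F1 σ n).bind fun a => (F2 σ n).map fun b => Nat.pair a b, ?_, ?_, ?_⟩
  · have h2' : Partrec fun p : (List Bool × ℕ) × ℕ => F2 p.1.1 p.1.2 :=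
      Partrec₂.comp h2 (Computable.fst.comp Computable.fst) (Computable.snd.comp Computable.fst)
    have h3 : Computable₂ fun (p : (List Bool × ℕ) × ℕ) (b : ℕ) => Nat.pair p.2 b :=
      (cpair (Computable.snd.comp Computable.fst) Computable.snd).to₂
    have h4 : Partrec₂ fun (p : List Bool × ℕ) (a : ℕ) =>
        (F2 p.1 p.2).map fun b => Nat.pair a b := (Partrec.map h2' h3).to₂
    have h1' : Partrec fun p : List Bool × ℕ => F1 p.1 p.2 := h1
    exact (Partrec.bind h1' h4).to₂
  · intro σ τ n y hστ hy
    simp only [Part.mem_bind_iff, Part.mem_map_iff] at hy ⊢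
    obtain ⟨a, ha, b, hb, rfl⟩ := hy
    exact ⟨a, m1 _ _ _ _ hστ ha, b, m2 _ _ _ _ hστ hb, rfl⟩
  · intro n y
    simp only [Part.mem_bind_iff, Part.mem_map_iff]
    constructor
    · rintro ⟨a, ha, b, hb, e⟩
      obtain ⟨k1, hk1⟩ := (e1 n a).1 ha
      obtain ⟨k2, hk2⟩ := (e2 n b).1 hb
      exact ⟨max k1 k2, a, m1 _ _ _ _ (seg_mono X (le_max_left _ _)) hk1, b,
        m2 _ _ _ _ (seg_mono X (le_max_right _ _)) hk2, e⟩
    · rintro ⟨k, a, ha, b, hb, e⟩
      exact ⟨a, (e1 n a).2 ⟨k, ha⟩, b, (e2 n b).2 ⟨k, hb⟩, e⟩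

theorem comp1_comp (X : ℕ → Bool) {f h : ℕ →. ℕ} (ihf : ∃ F, Comp1 X F f)
    (ihh : ∃ F, Comp1 X F h) : ∃ F, Comp1 X F (fun n => (h n).bind f) := by
  obtain ⟨F1, h1, m1, e1⟩ := ihf
  obtain ⟨F2, h2, m2, e2⟩ := ihh
  refine ⟨fun σ n => (F2 σ n).bind fun a => F1 σ a, ?_, ?_, ?_⟩
  · have h3 : Partrec₂ fun (p : List Bool × ℕ) (a : ℕ) => F1 p.1 a :=
      (Partrec₂.comp h1 (Computable.fst.comp Computable.fst) Computable.snd).to₂
    have h2' : Partrec fun p : List Bool × ℕ => F2 p.1 p.2 := h2
    exact (Partrec.bind h2' h3).to₂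
  · intro σ τ n y hστ hy
    simp only [Part.mem_bind_iff] at hy ⊢
    obtain ⟨a, ha, hb⟩ := hy
    exact ⟨a, m2 _ _ _ _ hστ ha, m1 _ _ _ _ hστ hb⟩
  · intro n y
    constructor
    · intro hy
      obtain ⟨a, ha, hb⟩ := Part.mem_bind_iff.1 hy
      obtain ⟨k1, hk1⟩ := (e2 n a).1 ha
      obtain ⟨k2, hk2⟩ := (e1 a y).1 hb
      exact ⟨max k1 k2, Part.mem_bind_iff.2 ⟨a, m2 _ _ _ _ (seg_mono X (le_max_left _ _)) hk1,
        m1 _ _ _ _ (seg_mono X (le_max_right _ _)) hk2⟩⟩
    · rintro ⟨k, hk⟩
      obtain ⟨a, ha, hb⟩ := Part.mem_bind_iff.1 hk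
      exact Part.mem_bind_iff.2 ⟨a, (e2 n a).2 ⟨k, ha⟩, (e1 a y).2 ⟨k, hb⟩⟩

/-- iteration used for primitive recursion -/
def precF (f h : ℕ →. ℕ) (a n : ℕ) : Part ℕ :=
  Nat.rec (f a) (fun y IH => IH.bind fun i => h (Nat.pair a (Nat.pair y i))) n

theorem comp1_prec (X : ℕ → Bool) {f h : ℕ →. ℕ} (ihf : ∃ F, Comp1 X F f)
    (ihh : ∃ F, Comp1 X F h) : ∃ F, Comp1 X F (fun p => precF f h p.unpair.1 p.unpair.2) := by
  obtain ⟨F1, h1, m1, e1⟩ := ihf
  obtain ⟨F2, h2, m2, e2⟩ := ihh
  have mG : ∀ σ τ a n y, σ <+: τ → y ∈ precF (F1 σ) (F2 σ) a n → y ∈ precF (F1 τ) (F2 τ) a n := by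
    intro σ τ a n
    induction n with
    | zero => intro y hst hy; exact m1 _ _ _ _ hst hy
    | succ n ih =>
      intro y hst hy
      have hy' : y ∈ (precF (F1 σ) (F2 σ) a n).bind fun i => F2 σ (Nat.pair a (Nat.pair n i)) := hy
      show y ∈ (precF (F1 τ) (F2 τ) a n).bind fun i => F2 τ (Nat.pair a (Nat.pair n i))
      rw [Part.mem_bind_iff] at hy' ⊢
      obtain ⟨i, hi, hj⟩ := hy'
      exact ⟨i, ih i hst hi, m2 _ _ _ _ hst hj⟩
  have eG : ∀ a n y, y ∈ precF f h a n ↔
      ∃ k, y ∈ precF (F1 (seg X k)) (F2 (seg X k)) a n := by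
    intro a n
    induction n with
    | zero => intro y; exact e1 a y
    | succ n ih =>
      intro y
      show (y ∈ (precF f h a n).bind fun i => h (Nat.pair a (Nat.pair n i))) ↔
        ∃ k, y ∈ (precF (F1 (seg X k)) (F2 (seg X k)) a n).bind
          fun i => F2 (seg X k) (Nat.pair a (Nat.pair n i))
      simp only [Part.mem_bind_iff]
      constructor
      · rintro ⟨i, hi, hj⟩
        obtain ⟨k1, hk1⟩ := (ih i).1 hi
        obtain ⟨k2, hk2⟩ := (e2 _ y).1 hj
        exact ⟨max k1 k2, i, mG _ _ _ _ _ (seg_mono X (le_max_left _ _)) hk1,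
          m2 _ _ _ _ (seg_mono X (le_max_right _ _)) hk2⟩
      · rintro ⟨k, i, hi, hj⟩
        exact ⟨i, (ih i).2 ⟨k, hi⟩, (e2 _ y).2 ⟨k, hj⟩⟩
  refine ⟨fun σ p => precF (F1 σ) (F2 σ) p.unpair.1 p.unpair.2, ?_, ?_, ?_⟩
  · have hu : Computable fun q : List Bool × ℕ => q.2.unpair :=
      Computable.unpair.comp Computable.snd
    have q1 : Partrec fun q : List Bool × ℕ => F1 q.1 q.2.unpair.1 :=
      Partrec₂.comp h1 Computable.fst (Computable.fst.comp hu)
    have q2 : Partrec₂ fun (q : List Bool × ℕ) (r : ℕ × ℕ) =>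
        F2 q.1 (Nat.pair q.2.unpair.1 (Nat.pair r.1 r.2)) :=
      (Partrec₂.comp h2 (Computable.fst.comp Computable.fst) (cpair
        ((Computable.fst.comp hu).comp Computable.fst)
        (cpair (Computable.fst.comp Computable.snd) (Computable.snd.comp Computable.snd)))).to₂
    exact (Partrec.nat_rec (Computable.snd.comp hu) q1 q2).to₂
  · intro σ τ n y hst hy
    exact mG _ _ _ _ _ hst hy
  · intro n y
    exact eG n.unpair.1 n.unpair.2 y

theorem comp1_rfind (X : ℕ → Bool) {f : ℕ →. ℕ} (ihf : ∃ F, Comp1 X F f) :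
    ∃ F, Comp1 X F
      (fun a => Nat.rfind fun n => (f (Nat.pair a n)).map fun m => decide (m = 0)) := by
  obtain ⟨F1, h1, m1, e1⟩ := ihf
  refine ⟨fun σ a => Nat.rfind fun n => (F1 σ (Nat.pair a n)).map fun m => decide (m = 0),
    ?_, ?_, ?_⟩
  · have q1 : Partrec fun q : (List Bool × ℕ) × ℕ => F1 q.1.1 (Nat.pair q.1.2 q.2) :=
      Partrec₂.comp h1 (Computable.fst.comp Computable.fst)
        (cpair (Computable.snd.comp Computable.fst) Computable.snd)
    have h3 : Primrec₂ fun m n : ℕ => decide (m = n) := Primrec.eq.decide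
    have q2 : Computable₂ fun (_ : (List Bool × ℕ) × ℕ) (m : ℕ) => decide (m = 0) :=
      (h3.to_comp.comp Computable.snd (Computable.const 0)).to₂
    have q3 : Partrec₂ fun (q : List Bool × ℕ) (n : ℕ) =>
        (F1 q.1 (Nat.pair q.2 n)).map fun m => decide (m = 0) := (Partrec.map q1 q2).to₂
    exact (Partrec.rfind q3).to₂
  · intro σ τ n y hst hy
    obtain ⟨hy1, hy2⟩ := Nat.mem_rfind.1 hy
    refine Nat.mem_rfind.2 ⟨?_, fun {z} hz => ?_⟩
    · obtain ⟨m, hm, e⟩ := (Part.mem_map_iff _).1 hy1
      exact (Part.mem_map_iff _).2 ⟨m, m1 _ _ _ _ hst hm, e⟩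
    · obtain ⟨m, hm, e⟩ := (Part.mem_map_iff _).1 (hy2 hz)
      exact (Part.mem_map_iff _).2 ⟨m, m1 _ _ _ _ hst hm, e⟩
  · intro a y
    constructor
    · intro hy
      obtain ⟨hy1, hy2⟩ := Nat.mem_rfind.1 hy
      have hb : ∀ N, N ≤ y → ∃ k, ∀ z < N, ∃ m, m ∈ F1 (seg X k) (Nat.pair a z) ∧
          decide (m = 0) = false := by
        intro N
        induction N with
        | zero => intro _; exact ⟨0, fun z hz => absurd hz (Nat.not_lt_zero z)⟩
        | succ N ih =>
          intro hN
          obtain ⟨k, hk⟩ := ih (Nat.le_of_succ_le hN)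
          have h3 := hy2 (Nat.lt_of_succ_le hN)
          obtain ⟨m, hm, e⟩ := (Part.mem_map_iff _).1 h3
          obtain ⟨k', hk'⟩ := (e1 _ _).1 hm
          refine ⟨max k k', fun z hz => ?_⟩
          rcases Nat.lt_succ_iff_lt_or_eq.1 hz with hz | rfl
          · obtain ⟨m', hm', e'⟩ := hk z hz
            exact ⟨m', m1 _ _ _ _ (seg_mono X (le_max_left _ _)) hm', e'⟩
          · exact ⟨m, m1 _ _ _ _ (seg_mono X (le_max_right _ _)) hk', by simpa using e⟩
      obtain ⟨k, hk⟩ := hb y le_rfl
      obtain ⟨m, hm, e⟩ := (Part.mem_map_iff _).1 hy1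
      obtain ⟨k', hk'⟩ := (e1 _ _).1 hm
      refine ⟨max k k', Nat.mem_rfind.2 ⟨?_, fun {z} hz => ?_⟩⟩
      · exact (Part.mem_map_iff _).2 ⟨m, m1 _ _ _ _ (seg_mono X (le_max_right _ _)) hk',
          by simpa using e⟩
      · obtain ⟨m', hm', e'⟩ := hk z hz
        exact (Part.mem_map_iff _).2 ⟨m', m1 _ _ _ _ (seg_mono X (le_max_left _ _)) hm', e'⟩
    · rintro ⟨k, hk⟩
      obtain ⟨hy1, hy2⟩ := Nat.mem_rfind.1 hk
      refine Nat.mem_rfind.2 ⟨?_, fun {z} hz => ?_⟩
      · obtain ⟨m, hm, e⟩ := (Part.mem_map_iff _).1 hy1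
        exact (Part.mem_map_iff _).2 ⟨m, (e1 _ _).2 ⟨k, hm⟩, by simpa using e⟩
      · obtain ⟨m, hm, e⟩ := (Part.mem_map_iff _).1 (hy2 hz)
        exact (Part.mem_map_iff _).2 ⟨m, (e1 _ _).2 ⟨k, hm⟩, by simpa using e⟩

theorem exists_functional1 (X : ℕ → Bool) (g : ℕ →. ℕ)
    (hg : Nat.RecursiveIn {(fun n => Part.some (chi X n) : ℕ →. ℕ)} g) :
    ∃ F, Comp1 X F g := by
  induction hg with
  | zero => exact ⟨_, comp1_pure X (Partrec.nat_iff.2 Nat.Partrec.zero)⟩
  | succ => exact ⟨_, comp1_pure X (Partrec.nat_iff.2 Nat.Partrec.succ)⟩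
  | left => exact ⟨_, comp1_pure X (Partrec.nat_iff.2 Nat.Partrec.left)⟩
  | right => exact ⟨_, comp1_pure X (Partrec.nat_iff.2 Nat.Partrec.right)⟩
  | oracle g hg =>
    rw [Set.mem_singleton_iff.1 hg]
    exact comp1_oracle X
  | @pair f h _ _ ihf ihh =>
    have e : (fun n => (Nat.pair <$> f n <*> h n) : ℕ →. ℕ) =
        fun n => (f n).bind fun a => (h n).map fun b => Nat.pair a b := by
      funext n
      apply Part.ext
      intro y
      simp [Seq.seq]
    rw [e]
    exact comp1_pair X ihf ihh
  | @comp f h _ _ ihf ihh => exact comp1_comp X ihf ihh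
  | @prec f h _ _ ihf ihh => exact comp1_prec X ihf ihh
  | @rfind f _ ihf => exact comp1_rfind X ihf

/-! ### First hits -/

/-- the value of `f` at the least `k < n` at which it is defined -/
def fs {β : Type} (f : ℕ → Option β) (n : ℕ) : Option β :=
  Nat.rec (motive := fun _ => Option β) none (fun k acc => Option.casesOn acc (f k) some) n

theorem fs_succ {β : Type} (f : ℕ → Option β) (n : ℕ) :
    fs f (n + 1) = Option.casesOn (fs f n) (f n) some := rfl

theorem fs_mono {β : Type} {f : ℕ → Option β} {n m : ℕ} {y : β} (h : n ≤ m)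
    (hy : fs f n = some y) : fs f m = some y := by
  induction m with
  | zero => rw [Nat.le_zero.1 h] at hy; exact hy
  | succ m ih =>
    rcases Nat.lt_or_eq_of_le h with h' | rfl
    · rw [fs_succ, ih (Nat.lt_succ_iff.1 h')]
    · exact hy

theorem fs_some {β : Type} {f : ℕ → Option β} {n : ℕ} {y : β}
    (hy : fs f n = some y) : ∃ k < n, f k = some y := by
  induction n with
  | zero => exact absurd hy (by simp [fs])
  | succ n ih =>
    rw [fs_succ] at hy
    rcases h : fs f n with _ | z
    · rw [h] at hy; exact ⟨n, Nat.lt_succ_self n, hy⟩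
    · rw [h] at hy
      have : z = y := Option.some.inj hy
      subst this
      obtain ⟨k, hk, e⟩ := ih h
      exact ⟨k, Nat.lt_succ_of_lt hk, e⟩

theorem fs_exists {β : Type} {f : ℕ → Option β} {n k : ℕ} {y : β} (hk : k < n)
    (hy : f k = some y) : ∃ z, fs f n = some z := by
  have h1 : ∃ z, fs f (k + 1) = some z := by
    rw [fs_succ]
    rcases h : fs f k with _ | z
    · exact ⟨y, hy⟩
    · exact ⟨z, rfl⟩
  obtain ⟨z, hz⟩ := h1
  exact ⟨z, fs_mono hk hz⟩

theorem fs_congr {β : Type} {f g : ℕ → Option β} {n : ℕ} (h : ∀ k < n, f k = g k) :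
    fs f n = fs g n := by
  induction n with
  | zero => rfl
  | succ n ih =>
    rw [fs_succ, fs_succ, ih (fun k hk => h k (Nat.lt_succ_of_lt hk)), h n (Nat.lt_succ_self n)]

theorem fs_comp {α β : Type} [Primcodable α] [Primcodable β] {f : α → ℕ → Option β} {n : α → ℕ}
    (hf : Computable₂ f) (hn : Computable n) : Computable fun a => fs (f a) (n a) := by
  have h3 : Computable₂ fun (a : α) (p : ℕ × Option β) =>
      (Option.casesOn p.2 (f a p.1) some : Option β) := by
    refine Computable.option_casesOn (α := α × ℕ × Option β) (o := fun q => q.2.2)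
      (f := fun q => f q.1 q.2.1) (g := fun _ s => some s)
      (Computable.snd.comp Computable.snd) ?_ ?_
    · exact hf.comp Computable.fst (Computable.fst.comp Computable.snd)
    · exact (Computable.option_some.comp Computable.snd).to₂
  exact (Computable.nat_rec hn (Computable.const none) h3).of_eq fun a => rfl

/-- `Φ` is a total computable monotone approximation of a functional computing `g` from `X` -/
structure Approx (X : ℕ → Bool) (Φ : List Bool → ℕ → Option ℕ) (g : ℕ → ℕ) : Prop where
  comp : Computable₂ Φ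
  mono : ∀ σ τ n y, σ <+: τ → Φ σ n = some y → Φ τ n = some y
  lim : ∀ n y, g n = y ↔ ∃ k, Φ (seg X k) n = some y

theorem partrec_code {α : Type} [Primcodable α] {F : α →. ℕ} (hF : Partrec F) :
    ∃ c : Code, ∀ a y, y ∈ F a ↔ ∃ s, evaln s c (Encodable.encode a) = some y := by
  obtain ⟨c, hc⟩ := exists_code.1 hF
  refine ⟨c, fun a y => ?_⟩
  have h1 : eval c (Encodable.encode a) = F a := by
    rw [hc]
    simp only [Encodable.encodek, Part.coe_some, Part.bind_some]
    exact Part.map_id' (fun _ => rfl) _
  rw [← h1, evaln_complete]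
  rfl

theorem exists_approx (X : ℕ → Bool) (g : ℕ → ℕ) (hg : degree g ≤ degree (chi X)) :
    ∃ Φ, Approx X Φ g := by
  have hg' : TuringReducible (fun n => Part.some (g n) : ℕ →. ℕ)
      (fun n => Part.some (chi X n) : ℕ →. ℕ) := hg
  obtain ⟨F, hF, mF, eF⟩ := exists_functional1 X _ (RecursiveIn.iff_nat.1 hg')
  obtain ⟨c, hc⟩ := partrec_code hF
  have hc' : ∀ σ n y, y ∈ F σ n ↔ ∃ s, evaln s c (Encodable.encode (σ, n)) = some y :=
    fun σ n y => hc (σ, n) y
  let f : List Bool → ℕ → ℕ → Option ℕ := fun σ n m =>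
    evaln m.unpair.2 c (Encodable.encode (σ.take m.unpair.1, n))
  have hcong : ∀ σ τ n, σ <+: τ → ∀ m < σ.length, f τ n m = f σ n m := by
    intro σ τ n h m hm
    obtain ⟨ρ, rfl⟩ := h
    have h1 : m.unpair.1 ≤ σ.length := (Nat.unpair_left_le m).trans hm.le
    simp only [f]
    rw [List.take_append_of_le_length h1]
  refine ⟨fun σ n => fs (f σ n) σ.length, ?_, ?_, ?_⟩
  · refine fs_comp (α := List Bool × ℕ) (f := fun p => f p.1 p.2) (n := fun p => p.1.length) ?_
      (Computable.list_length.comp Computable.fst)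
    have hm : Computable fun q : (List Bool × ℕ) × ℕ => q.2.unpair :=
      Computable.unpair.comp Computable.snd
    have ht : Computable fun q : (List Bool × ℕ) × ℕ => q.1.1.take q.2.unpair.1 :=
      Primrec.list_take.to_comp.comp (Computable.fst.comp hm)
        (Computable.fst.comp Computable.fst)
    exact (primrec_evaln.to_comp.comp (((Computable.snd.comp hm).pair (Computable.const c)).pair
      (Computable.encode.comp (ht.pair (Computable.snd.comp Computable.fst))))).to₂
  · intro σ τ n y h hy
    have h1 : fs (f τ n) σ.length = some y := by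
      rw [fs_congr (hcong σ τ n h)]; exact hy
    exact fs_mono h.length_le h1
  · intro n y
    constructor
    · intro h
      have h1 : y ∈ (Part.some (g n) : Part ℕ) := by rw [h]; exact Part.mem_some _
      obtain ⟨k, hk⟩ := (eF n y).1 h1
      obtain ⟨s, hs⟩ := (hc' _ _ _).1 hk
      have h2 : f (seg X (Nat.pair k s + 1)) n (Nat.pair k s) = some y := by
        have h3 : (seg X (Nat.pair k s + 1)).take k = seg X k := by
          have hle : k ≤ Nat.pair k s + 1 := (Nat.left_le_pair k s).trans (Nat.le_succ _)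
          have := List.prefix_iff_eq_take.1 (seg_mono X hle)
          rw [seg_length] at this
          exact this.symm
        simp only [f, Nat.unpair_pair]
        rw [h3]; exact hs
      obtain ⟨z, hz⟩ := fs_exists (n := Nat.pair k s + 1) (Nat.lt_succ_self _) h2
      refine ⟨Nat.pair k s + 1, ?_⟩
      have h5 : fs (f (seg X (Nat.pair k s + 1)) n) (seg X (Nat.pair k s + 1)).length = some z := by
        rw [seg_length]; exact hz
      obtain ⟨m, hm, e⟩ := fs_some hz
      have h6 : z ∈ F ((seg X (Nat.pair k s + 1)).take m.unpair.1) n := (hc' _ _ _).2 ⟨_, e⟩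
      have h7 : z ∈ F (seg X (Nat.pair k s + 1)) n := mF _ _ _ _ (List.take_prefix _ _) h6
      have h8 : z ∈ (Part.some (g n) : Part ℕ) := (eF n z).2 ⟨_, h7⟩
      have h9 : z = y := by rw [← h]; simpa using h8
      rw [← h9]
      exact h5
    · rintro ⟨k, hk⟩
      obtain ⟨m, hm, e⟩ := fs_some hk
      have h6 : y ∈ F ((seg X k).take m.unpair.1) n := (hc' _ _ _).2 ⟨_, e⟩
      have h7 : y ∈ F (seg X k) n := mF _ _ _ _ (List.take_prefix _ _) h6
      have h8 : y ∈ (Part.some (g n) : Part ℕ) := (eF n y).2 ⟨_, h7⟩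
      have h9 : y = g n := by simpa using h8
      exact h9.symm

/-! ### The construction, relative to an extension operator `φ`

`φ j k β` is an extension of `β` in the open set `V j k`, if one has been found. -/

/-- the type of extension operators -/
abbrev Op : Type := ℕ → ℕ → List Bool → Option (List Bool)

/-- decide `V j 0` -/
def dec (φ : Op) (j : ℕ) (β : List Bool) : List Bool := (φ j 0 β).getD β

/-- one step of the construction of the point `X_j`; the flag says that the search got stuck -/
def stp (φ : Op) (j i : ℕ) (r : List Bool × Bool) : List Bool × Bool :=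
  bif r.2 then r else Option.casesOn (φ j i r.1) (r.1, true) (fun τ => (τ ++ [false], false))

/-- `s` steps of the construction of the point `X_j` above `β` -/
def run (φ : Op) (j : ℕ) (β : List Bool) (s : ℕ) : List Bool × Bool :=
  Nat.rec (motive := fun _ => List Bool × Bool) (β ++ [false], false) (fun i r => stp φ j i r) s

theorem run_succ (φ : Op) (j : ℕ) (β : List Bool) (s : ℕ) :
    run φ j β (s + 1) = stp φ j s (run φ j β s) := rfl

/-- the next base -/
def nxt (φ : Op) (s j : ℕ) (β : List Bool) : List Bool :=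
  bif (run φ j (dec φ j β) s).2 then (run φ j (dec φ j β) s).1 else dec φ j β ++ [true]

/-- the base of requirement `j` at stage `s` -/
def base (φ : Op) (s j : ℕ) : List Bool :=
  Nat.rec (motive := fun _ => List Bool) [] (fun i β => nxt φ s i β) j

theorem base_succ (φ : Op) (s j : ℕ) : base φ s (j + 1) = nxt φ s j (base φ s j) := rfl

/-- the run of requirement `j` at stage `s` -/
def cur (φ : Op) (s j : ℕ) : List Bool × Bool := run φ j (dec φ j (base φ s j)) s

/-- the strings found by the operator are extensions -/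
def IsExt (φ : Op) : Prop := ∀ j k β τ, φ j k β = some τ → β <+: τ

theorem dec_ext {φ : Op} (h : IsExt φ) (j : ℕ) (β : List Bool) : β <+: dec φ j β := by
  unfold dec
  rcases e : φ j 0 β with _ | τ
  · exact List.prefix_rfl
  · exact h _ _ _ _ e

theorem stp_ext {φ : Op} (h : IsExt φ) (j i : ℕ) (r : List Bool × Bool) :
    r.1 <+: (stp φ j i r).1 := by
  unfold stp
  rcases r with ⟨ρ, b⟩
  cases b
  · rcases e : φ j i ρ with _ | τ
    · simp
    · simp only [cond_false]
      exact (h _ _ _ _ e).trans (List.prefix_append _ _)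
  · exact List.prefix_rfl

theorem run_mono {φ : Op} (h : IsExt φ) (j : ℕ) (β : List Bool) {s t : ℕ} (hst : s ≤ t) :
    (run φ j β s).1 <+: (run φ j β t).1 := by
  induction t with
  | zero => rw [Nat.le_zero.1 hst]
  | succ t ih =>
    rcases Nat.lt_or_eq_of_le hst with h' | rfl
    · rw [run_succ]
      exact (ih (Nat.lt_succ_iff.1 h')).trans (stp_ext h _ _ _)
    · exact List.prefix_rfl

theorem run_stuck {φ : Op} (j : ℕ) (β : List Bool) {s t : ℕ} (hst : s ≤ t)
    (hs : (run φ j β s).2 = true) : run φ j β t = run φ j β s := by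
  induction t with
  | zero => rw [Nat.le_zero.1 hst]
  | succ t ih =>
    rcases Nat.lt_or_eq_of_le hst with h' | rfl
    · rw [run_succ, ih (Nat.lt_succ_iff.1 h')]
      unfold stp
      rw [hs]; rfl
    · rfl

theorem run_active {φ : Op} (h : IsExt φ) (j : ℕ) (β : List Bool) {s : ℕ}
    (hs : (run φ j β (s + 1)).2 = false) : (run φ j β s).2 = false ∧
      ∃ τ, φ j s (run φ j β s).1 = some τ ∧ (run φ j β (s + 1)).1 = τ ++ [false] ∧
        (run φ j β s).1 <+: τ := by
  rw [run_succ] at hs ⊢
  unfold stp at hs ⊢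
  rcases hb : (run φ j β s).2 with _ | _
  · refine ⟨rfl, ?_⟩
    rw [hb] at hs
    rcases e : φ j s (run φ j β s).1 with _ | τ
    · rw [e] at hs; simp at hs
    · exact ⟨τ, rfl, by simp, h _ _ _ _ e⟩
  · rw [hb] at hs; simp [hb] at hs

theorem run_length {φ : Op} (h : IsExt φ) (j : ℕ) (β : List Bool) (s : ℕ)
    (hs : (run φ j β s).2 = false) : s < (run φ j β s).1.length := by
  induction s with
  | zero => simp [run]
  | succ s ih =>
    obtain ⟨h1, τ, e1, e2, e3⟩ := run_active h j β hs
    have := ih h1
    rw [e2, List.length_append]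
    have := e3.length_le
    simp only [List.length_singleton]
    omega

theorem nxt_ext {φ : Op} (h : IsExt φ) (s j : ℕ) (β : List Bool) :
    dec φ j β <+: nxt φ s j β ∧ (dec φ j β).length < (nxt φ s j β).length := by
  have h0 : (run φ j (dec φ j β) 0).1 = dec φ j β ++ [false] := rfl
  have h1 := run_mono h j (dec φ j β) (Nat.zero_le s)
  rw [h0] at h1
  unfold nxt
  rcases (run φ j (dec φ j β) s).2 with _ | _
  · simp only [cond_false]
    exact ⟨List.prefix_append _ _, by simp⟩
  · simp only [cond_true]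
    refine ⟨(List.prefix_append _ _).trans h1, ?_⟩
    have := h1.length_le
    rw [List.length_append, List.length_singleton] at this
    omega

theorem base_mono {φ : Op} (h : IsExt φ) (s : ℕ) {i j : ℕ} (hij : i ≤ j) :
    base φ s i <+: base φ s j := by
  induction j with
  | zero => rw [Nat.le_zero.1 hij]
  | succ j ih =>
    rcases Nat.lt_or_eq_of_le hij with h' | rfl
    · rw [base_succ]
      exact (ih (Nat.lt_succ_iff.1 h')).trans ((dec_ext h _ _).trans (nxt_ext h s j _).1)
    · exact List.prefix_rfl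

theorem cur_ext {φ : Op} (h : IsExt φ) (s j : ℕ) : base φ s j <+: (cur φ s j).1 := by
  have h1 := run_mono h j (dec φ j (base φ s j)) (Nat.zero_le s)
  have h0 : (run φ j (dec φ j (base φ s j)) 0).1 = dec φ j (base φ s j) ++ [false] := rfl
  rw [h0] at h1
  exact (dec_ext h _ _).trans ((List.prefix_append _ _).trans h1)

/-! ### The limit of the construction -/

open Classical in
/-- the final base: the stuck string, or the deviation from the point `X_j` -/
noncomputable def fb (φ : Op) (j : ℕ) : List Bool :=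
  Nat.rec (motive := fun _ => List Bool) []
    (fun i β => if h : ∃ s, (run φ i (dec φ i β) s).2 = true
      then (run φ i (dec φ i β) h.choose).1 else dec φ i β ++ [true]) j

/-- requirement `j` gets stuck -/
def Stuck (φ : Op) (j : ℕ) : Prop := ∃ s, (run φ j (dec φ j (fb φ j)) s).2 = true

theorem fb_stuck {φ : Op} {j s : ℕ} (h : (run φ j (dec φ j (fb φ j)) s).2 = true) :
    fb φ (j + 1) = (run φ j (dec φ j (fb φ j)) s).1 := by
  have hex : ∃ s, (run φ j (dec φ j (fb φ j)) s).2 = true := ⟨s, h⟩
  have h1 : fb φ (j + 1) = (run φ j (dec φ j (fb φ j)) hex.choose).1 := dif_pos hex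
  rw [h1]
  rcases Nat.le_total s hex.choose with h' | h'
  · rw [run_stuck j _ h' h]
  · rw [run_stuck j _ h' hex.choose_spec]

theorem fb_not_stuck {φ : Op} {j : ℕ} (h : ¬ Stuck φ j) :
    fb φ (j + 1) = dec φ j (fb φ j) ++ [true] := dif_neg h

theorem fb_ext {φ : Op} (h : IsExt φ) (j : ℕ) :
    dec φ j (fb φ j) <+: fb φ (j + 1) ∧ (dec φ j (fb φ j)).length < (fb φ (j + 1)).length := by
  by_cases hs : Stuck φ j
  · obtain ⟨s, hs⟩ := hs
    rw [fb_stuck hs]
    have h0 : (run φ j (dec φ j (fb φ j)) 0).1 = dec φ j (fb φ j) ++ [false] := rfl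
    have h1 := run_mono h j (dec φ j (fb φ j)) (Nat.zero_le s)
    rw [h0] at h1
    refine ⟨(List.prefix_append _ _).trans h1, ?_⟩
    have := h1.length_le
    rw [List.length_append, List.length_singleton] at this
    omega
  · rw [fb_not_stuck hs]
    exact ⟨List.prefix_append _ _, by simp⟩

theorem fb_mono {φ : Op} (h : IsExt φ) {i j : ℕ} (hij : i ≤ j) : fb φ i <+: fb φ j := by
  induction j with
  | zero => rw [Nat.le_zero.1 hij]
  | succ j ih =>
    rcases Nat.lt_or_eq_of_le hij with h' | rfl
    · exact (ih (Nat.lt_succ_iff.1 h')).trans ((dec_ext h _ _).trans (fb_ext h j).1)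
    · exact List.prefix_rfl

theorem fb_length {φ : Op} (h : IsExt φ) (j : ℕ) : j ≤ (fb φ j).length := by
  induction j with
  | zero => exact Nat.zero_le _
  | succ j ih =>
    have h1 := (fb_ext h j).2
    have h2 := (dec_ext h j (fb φ j)).length_le
    omega

/-- the generic -/
noncomputable def Gen (φ : Op) (n : ℕ) : Bool := (fb φ (n + 1)).getD n false

/-- `σ` is an initial segment of `X` -/
def Ini (X : ℕ → Bool) (σ : List Bool) : Prop := ∀ n < σ.length, σ[n]? = some (X n)

theorem ini_seg {X : ℕ → Bool} {σ : List Bool} (h : Ini X σ) : seg X σ.length = σ := by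
  apply List.ext_getElem?
  intro n
  by_cases hn : n < σ.length
  · rw [seg_get X hn, h n hn]
  · rw [List.getElem?_eq_none (by rw [seg_length]; omega), List.getElem?_eq_none (by omega)]

theorem ini_of_prefix {X : ℕ → Bool} {σ τ : List Bool} (h : σ <+: τ) (ht : Ini X τ) : Ini X σ := by
  obtain ⟨ρ, rfl⟩ := h
  intro n hn
  rw [← ht n (by rw [List.length_append]; omega), List.getElem?_append_left hn]

theorem ini_fb {φ : Op} (h : IsExt φ) (j : ℕ) : Ini (Gen φ) (fb φ j) := by
  intro n hn
  have key : ∀ i k, n < (fb φ i).length → i ≤ k → (fb φ k)[n]? = (fb φ i)[n]? := by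
    intro i k hi hik
    obtain ⟨ρ, hρ⟩ := fb_mono h hik
    rw [← hρ, List.getElem?_append_left hi]
  have h1 : n < (fb φ (n + 1)).length := fb_length h (n + 1)
  have h2 : (fb φ j)[n]? = (fb φ (n + 1))[n]? := by
    rcases Nat.le_total j (n + 1) with h' | h'
    · exact (key _ _ hn h').symm
    · exact key _ _ h1 h'
  rw [h2]
  unfold Gen
  rw [List.getD_eq_getElem?_getD, List.getElem?_eq_getElem h1]
  rfl

/-- the stage-`s` bases converge to the final bases -/
theorem base_eventually {φ : Op} (j : ℕ) : ∃ s0, ∀ s, s0 ≤ s → ∀ i ≤ j,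
    base φ s i = fb φ i := by
  induction j with
  | zero => exact ⟨0, fun s _ i hi => by rw [Nat.le_zero.1 hi]; rfl⟩
  | succ j ih =>
    obtain ⟨s0, h0⟩ := ih
    by_cases hs : Stuck φ j
    · obtain ⟨s1, h1⟩ := hs
      refine ⟨max s0 s1, fun s hs i hi => ?_⟩
      rcases Nat.lt_or_eq_of_le hi with hi | rfl
      · exact h0 s ((le_max_left _ _).trans hs) i (Nat.lt_succ_iff.1 hi)
      · have hb := h0 s ((le_max_left _ _).trans hs) j le_rfl
        have hr := run_stuck j _ ((le_max_right s0 s1).trans hs) h1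
        rw [base_succ, hb, fb_stuck h1]
        unfold nxt
        rw [hr, h1]; rfl
    · refine ⟨s0, fun s hs' i hi => ?_⟩
      rcases Nat.lt_or_eq_of_le hi with hi | rfl
      · exact h0 s hs' i (Nat.lt_succ_iff.1 hi)
      · have hb := h0 s hs' j le_rfl
        have hr : (run φ j (dec φ j (fb φ j)) s).2 = false := by
          by_contra hcon
          exact hs ⟨s, by simpa using hcon⟩
        rw [base_succ, hb, fb_not_stuck hs]
        unfold nxt
        rw [hr]; rfl

/-- at every stage the generic is in the current closed set -/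
theorem gen_mem {φ : Op} (h : IsExt φ) (s j : ℕ) :
    (∃ i < j, (cur φ s i).2 = false ∧ Ini (Gen φ) (cur φ s i).1) ∨ base φ s j = fb φ j := by
  induction j with
  | zero => right; rfl
  | succ j ih =>
    rcases ih with ⟨i, hi, hh⟩ | hb
    · left; exact ⟨i, Nat.lt_succ_of_lt hi, hh⟩
    · rcases hr : (run φ j (dec φ j (fb φ j)) s).2 with _ | _
      · by_cases hs : Stuck φ j
        · left
          obtain ⟨t, ht⟩ := hs
          refine ⟨j, Nat.lt_succ_self j, ?_, ?_⟩
          · unfold cur; rw [hb]; exact hr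
          · unfold cur; rw [hb]
            have hst : s ≤ t := by
              by_contra hcon
              rw [run_stuck j _ (Nat.le_of_not_le hcon) ht, ht] at hr
              exact absurd hr (by decide)
            have h1 := run_mono h j (dec φ j (fb φ j)) hst
            have h2 := ini_fb h (j + 1)
            rw [fb_stuck ht] at h2
            exact ini_of_prefix h1 h2
        · right
          rw [base_succ, hb, fb_not_stuck hs]
          unfold nxt
          rw [hr]; rfl
      · right
        rw [base_succ, hb, fb_stuck hr]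
        unfold nxt
        rw [hr]; rfl

/-! ### The extension operators -/

/-- the `m`-th attempt to find an extension of `β` in the `k`-th open set coded by `j` -/
def att (j k : ℕ) (β : List Bool) (m : ℕ) : Option (List Bool) :=
  (Encodable.decode (α := ℕ × List Bool) m).bind fun p =>
    bif (evaln p.1 (Denumerable.ofNat Code j) (Encodable.encode (k, β ++ p.2))).isSome
      then some (β ++ p.2) else none

/-- the search bounded by `t` -/
def find (t : ℕ) : Op := fun j k β => fs (att j k β) t

open Classical in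
/-- the unbounded search -/
noncomputable def finf : Op := fun j k β =>
  if h : ∃ t, (find t j k β).isSome = true then find h.choose j k β else none

/-- the `k`-th open set coded by `j` -/
def V (j k : ℕ) : Set (List Bool) :=
  {τ | (eval (Denumerable.ofNat Code j) (Encodable.encode (k, τ))).Dom}

theorem att_some {j k m : ℕ} {β τ : List Bool} (h : att j k β m = some τ) :
    β <+: τ ∧ τ ∈ V j k := by
  unfold att at h
  rw [Option.bind_eq_some_iff] at h
  obtain ⟨⟨s, ρ⟩, h1, h2⟩ := h
  simp only at h2
  rcases e : evaln s (Denumerable.ofNat Code j) (Encodable.encode (k, β ++ ρ)) with _ | y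
  · rw [e] at h2; simp at h2
  · rw [e] at h2
    have : β ++ ρ = τ := by simpa using h2
    subst this
    refine ⟨List.prefix_append _ _, ?_⟩
    exact Part.dom_iff_mem.2 ⟨y, evaln_sound e⟩

theorem att_exists {j k : ℕ} {β τ : List Bool} (h : β <+: τ) (hV : τ ∈ V j k) :
    ∃ m, att j k β m = some τ := by
  obtain ⟨ρ, rfl⟩ := h
  obtain ⟨y, hy⟩ := Part.dom_iff_mem.1 hV
  obtain ⟨s, hs⟩ := evaln_complete.1 hy
  refine ⟨Encodable.encode (s, ρ), ?_⟩
  unfold att
  rw [Encodable.encodek]
  have hs' : evaln s (Denumerable.ofNat Code j) (Encodable.encode (k, β ++ ρ)) = some y := hs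
  show (bif (evaln s (Denumerable.ofNat Code j) (Encodable.encode (k, β ++ ρ))).isSome
      then some (β ++ ρ) else none) = some (β ++ ρ)
  rw [hs']; rfl

theorem find_ext (t : ℕ) : IsExt (find t) := by
  intro j k β τ h
  obtain ⟨m, _, hm⟩ := fs_some h
  exact (att_some hm).1

theorem find_finf {t j k : ℕ} {β τ : List Bool} (h : find t j k β = some τ) :
    finf j k β = some τ := by
  have hex : ∃ t, (find t j k β).isSome = true := ⟨t, by rw [h]; rfl⟩
  have h1 : finf j k β = find hex.choose j k β := dif_pos hex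
  obtain ⟨z, hz⟩ := Option.isSome_iff_exists.1 hex.choose_spec
  rw [h1, hz]
  rcases Nat.le_total t hex.choose with h' | h'
  · have := fs_mono h' h
    rw [← hz]; exact this
  · have h3 : find t j k β = some z := fs_mono h' hz
    rw [← h3, h]

theorem finf_find {j k : ℕ} {β τ : List Bool} (h : finf j k β = some τ) :
    ∃ t0, ∀ t, t0 ≤ t → find t j k β = some τ := by
  by_cases hex : ∃ t, (find t j k β).isSome = true
  · have h1 : finf j k β = find hex.choose j k β := dif_pos hex
    rw [h1] at h
    exact ⟨hex.choose, fun t ht => fs_mono ht h⟩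
  · have h1 : finf j k β = none := dif_neg hex
    rw [h1] at h; exact absurd h (by simp)

theorem find_ev (j k : ℕ) (β : List Bool) :
    ∀ᶠ t in Filter.atTop, find t j k β = finf j k β := by
  rw [Filter.eventually_atTop]
  rcases h : finf j k β with _ | τ
  · refine ⟨0, fun t _ => ?_⟩
    rcases e : find t j k β with _ | z
    · rfl
    · rw [find_finf e] at h; exact absurd h (by simp)
  · obtain ⟨t0, h0⟩ := finf_find h
    exact ⟨t0, h0⟩

theorem finf_ext : IsExt finf := by
  intro j k β τ h
  obtain ⟨t0, h0⟩ := finf_find h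
  exact find_ext t0 j k β τ (h0 t0 le_rfl)

theorem finf_mem {j k : ℕ} {β τ : List Bool} (h : finf j k β = some τ) : τ ∈ V j k := by
  obtain ⟨t0, h0⟩ := finf_find h
  obtain ⟨m, _, hm⟩ := fs_some (h0 t0 le_rfl)
  exact (att_some hm).2

theorem finf_none {j k : ℕ} {β : List Bool} (h : finf j k β = none) (τ : List Bool)
    (hτ : β <+: τ) : τ ∉ V j k := by
  intro hV
  obtain ⟨m, hm⟩ := att_exists hτ hV
  obtain ⟨z, hz⟩ := fs_exists (n := m + 1) (Nat.lt_succ_self m) hm
  have : find (m + 1) j k β = some z := hz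
  rw [find_finf this] at h
  exact absurd h (by simp)

/-! ### Convergence of the bounded constructions -/

theorem dec_ev (j : ℕ) (β : List Bool) :
    ∀ᶠ t in Filter.atTop, dec (find t) j β = dec finf j β := by
  filter_upwards [find_ev j 0 β] with t ht
  unfold dec; rw [ht]

theorem run_ev (j : ℕ) (β : List Bool) (s : ℕ) :
    ∀ᶠ t in Filter.atTop, run (find t) j β s = run finf j β s := by
  induction s with
  | zero => exact Filter.Eventually.of_forall fun _ => rfl
  | succ s ih =>
    filter_upwards [ih, find_ev j s (run finf j β s).1] with t h1 h2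
    rw [run_succ, run_succ, h1]
    unfold stp
    rw [h2]

theorem base_ev (s j : ℕ) :
    ∀ᶠ t in Filter.atTop, base (find t) s j = base finf s j := by
  induction j with
  | zero => exact Filter.Eventually.of_forall fun _ => rfl
  | succ j ih =>
    filter_upwards [ih, dec_ev j (base finf s j), run_ev j (dec finf j (base finf s j)) s]
      with t h1 h2 h3
    rw [base_succ, base_succ, h1]
    unfold nxt
    rw [h2, h3]

theorem cur_ev (s j : ℕ) :
    ∀ᶠ t in Filter.atTop, cur (find t) s j = cur finf s j := by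
  filter_upwards [base_ev s j, dec_ev j (base finf s j), run_ev j (dec finf j (base finf s j)) s]
    with t h1 h2 h3
  unfold cur
  rw [h1, h2, h3]

/-! ### Computability of the bounded constructions -/

section comp

variable {α : Type} [Primcodable α]

theorem att_comp {j k m : α → ℕ} {β : α → List Bool} (hj : Computable j) (hk : Computable k)
    (hβ : Computable β) (hm : Computable m) :
    Computable fun a => att (j a) (k a) (β a) (m a) := by
  have hd : Computable fun a => (Encodable.decode (α := ℕ × List Bool) (m a)) :=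
    Computable.decode.comp hm
  have happ : Computable fun q : α × (ℕ × List Bool) => β q.1 ++ q.2.2 :=
    Computable.list_append.comp (hβ.comp Computable.fst) (Computable.snd.comp Computable.snd)
  have hev : Computable fun q : α × (ℕ × List Bool) =>
      evaln q.2.1 (Denumerable.ofNat Code (j q.1)) (Encodable.encode (k q.1, β q.1 ++ q.2.2)) :=
    primrec_evaln.to_comp.comp (((Computable.fst.comp Computable.snd).pair
      ((Computable.ofNat Code).comp (hj.comp Computable.fst))).pair
      (Computable.encode.comp ((hk.comp Computable.fst).pair happ)))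
  refine Computable.option_bind hd ?_
  exact (Computable.cond (Primrec.option_isSome.to_comp.comp hev)
    (Computable.option_some.comp happ) (Computable.const none)).to₂

theorem find_comp {t j k : α → ℕ} {β : α → List Bool} (ht : Computable t) (hj : Computable j)
    (hk : Computable k) (hβ : Computable β) :
    Computable fun a => find (t a) (j a) (k a) (β a) := by
  refine fs_comp (α := α) (f := fun a => att (j a) (k a) (β a)) (n := t) ?_ ht
  exact (att_comp (hj.comp Computable.fst) (hk.comp Computable.fst) (hβ.comp Computable.fst)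
    Computable.snd).to₂

theorem dec_comp {t j : α → ℕ} {β : α → List Bool} (ht : Computable t) (hj : Computable j)
    (hβ : Computable β) : Computable fun a => dec (find (t a)) (j a) (β a) :=
  Computable.option_getD (find_comp ht hj (Computable.const 0) hβ) hβ

theorem stp_comp {t j i : α → ℕ} {r : α → List Bool × Bool} (ht : Computable t)
    (hj : Computable j) (hi : Computable i) (hr : Computable r) :
    Computable fun a => stp (find (t a)) (j a) (i a) (r a) := by
  have h1 : Computable fun a => (r a).1 := Computable.fst.comp hr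
  have h2 : Computable fun a => (r a).2 := Computable.snd.comp hr
  refine Computable.cond h2 hr ?_
  refine Computable.option_casesOn (o := fun a => find (t a) (j a) (i a) (r a).1)
    (f := fun a => ((r a).1, true)) (g := fun _ τ => (τ ++ [false], false))
    (find_comp ht hj hi h1) (h1.pair (Computable.const true)) ?_
  exact ((Computable.list_append.comp Computable.snd (Computable.const [false])).pair
    (Computable.const false)).to₂

theorem run_comp {t j s : α → ℕ} {β : α → List Bool} (ht : Computable t) (hj : Computable j)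
    (hβ : Computable β) (hs : Computable s) :
    Computable fun a => run (find (t a)) (j a) (β a) (s a) := by
  have h0 : Computable fun a => (β a ++ [false], false) :=
    (Computable.list_append.comp hβ (Computable.const [false])).pair (Computable.const false)
  have h1 : Computable₂ fun (a : α) (p : ℕ × (List Bool × Bool)) =>
      stp (find (t a)) (j a) p.1 p.2 :=
    (stp_comp (ht.comp Computable.fst) (hj.comp Computable.fst)
      (Computable.fst.comp Computable.snd) (Computable.snd.comp Computable.snd)).to₂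
  exact (Computable.nat_rec hs h0 h1).of_eq fun a => rfl

theorem nxt_comp {t s j : α → ℕ} {β : α → List Bool} (ht : Computable t) (hs : Computable s)
    (hj : Computable j) (hβ : Computable β) :
    Computable fun a => nxt (find (t a)) (s a) (j a) (β a) := by
  have hd := dec_comp ht hj hβ
  have hr := run_comp ht hj hd hs
  exact Computable.cond (Computable.snd.comp hr) (Computable.fst.comp hr)
    (Computable.list_append.comp hd (Computable.const [true]))

theorem base_comp {t s j : α → ℕ} (ht : Computable t) (hs : Computable s) (hj : Computable j) :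
    Computable fun a => base (find (t a)) (s a) (j a) := by
  have h1 : Computable₂ fun (a : α) (p : ℕ × List Bool) =>
      nxt (find (t a)) (s a) p.1 p.2 :=
    (nxt_comp (ht.comp Computable.fst) (hs.comp Computable.fst)
      (Computable.fst.comp Computable.snd) (Computable.snd.comp Computable.snd)).to₂
  exact (Computable.nat_rec hj (Computable.const []) h1).of_eq fun a => rfl

theorem cur_comp {t s j : α → ℕ} (ht : Computable t) (hs : Computable s) (hj : Computable j) :
    Computable fun a => cur (find (t a)) (s a) (j a) :=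
  run_comp ht hj (dec_comp ht hj (base_comp ht hs hj)) hs

end comp

/-! ### The computable points `X_j` -/

/-- if the bounded run is not stuck, it agrees with the true run -/
theorem run_find {t j s : ℕ} {β : List Bool} (h : (run (find t) j β s).2 = false) :
    run (find t) j β s = run finf j β s := by
  induction s with
  | zero => rfl
  | succ s ih =>
    obtain ⟨h1, τ, e1, e2, e3⟩ := run_active (find_ext t) j β h
    have h2 := ih h1
    rw [run_succ, run_succ, ← h2]
    unfold stp
    rw [e1, find_finf e1]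

theorem point (j : ℕ) (hns : ¬ Stuck finf j) : ∃ X : ℕ → Bool, Computable X ∧
    (∀ s, Ini X (run finf j (dec finf j (fb finf j)) s).1) ∧ ∀ k, ∃ n, seg X n ∈ V j k := by
  classical
  set β := dec finf j (fb finf j) with hβ
  have hact : ∀ s, (run finf j β s).2 = false := by
    intro s
    by_contra hcon
    exact hns ⟨s, by simpa using hcon⟩
  obtain ⟨T, hT, hT2⟩ := search (α := ℕ) (q := fun n t => !(run (find t) j β n).2)
    (cnot (Computable.snd.comp (run_comp Computable.snd (Computable.const j)
      (Computable.const β) Computable.fst))).to₂ (by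
      intro n
      obtain ⟨t, ht⟩ := (run_ev j β n).exists
      exact ⟨t, by rw [ht, hact n]; rfl⟩)
  have hTr : ∀ n, run (find (T n)) j β n = run finf j β n := fun n => run_find (by
    have := hT2 n
    simpa using this)
  let X : ℕ → Bool := fun n => (run (find (T n)) j β n).1.getD n false
  have hX : Computable X := by
    have h1 : Computable fun n => (run (find (T n)) j β n).1 :=
      Computable.fst.comp (run_comp hT (Computable.const j) (Computable.const β) Computable.id)
    exact (Primrec.list_getD false).to_comp.comp h1 Computable.id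
  have hini : ∀ s, Ini X (run finf j β s).1 := by
    intro s n hn
    have hlen : n < (run finf j β n).1.length := run_length finf_ext j β n (hact n)
    have e : X n = (run finf j β n).1.getD n false := by
      show (run (find (T n)) j β n).1.getD n false = _
      rw [hTr]
    have key : (run finf j β s).1[n]? = (run finf j β n).1[n]? := by
      rcases Nat.le_total s n with h | h
      · obtain ⟨ρ, hρ⟩ := run_mono finf_ext j β h
        rw [← hρ, List.getElem?_append_left hn]
      · obtain ⟨ρ, hρ⟩ := run_mono finf_ext j β h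
        rw [← hρ, List.getElem?_append_left hlen]
    rw [key, e, List.getD_eq_getElem?_getD, List.getElem?_eq_getElem hlen]
    rfl
  refine ⟨X, hX, hini, fun k => ?_⟩
  obtain ⟨_, τ, e1, e2, e3⟩ := run_active finf_ext j β (hact (k + 1))
  have h1 : Ini X τ := ini_of_prefix (by rw [e2]; exact List.prefix_append _ _) (hini (k + 1))
  exact ⟨τ.length, by rw [ini_seg h1]; exact finf_mem e1⟩

/-! ### Genericity -/

/-- the generic set -/
noncomputable def G : ℕ → Bool := Gen finf

theorem ini_G (j : ℕ) : Ini G (fb finf j) := ini_fb finf_ext j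

theorem re_index {W : ℕ × List Bool → Prop} (hW : REPred W) :
    ∃ j, ∀ k τ, τ ∈ V j k ↔ W (k, τ) := by
  have h1 : Partrec fun a : ℕ × List Bool => (Part.assert (W a) fun _ => Part.some (0 : ℕ)) := by
    refine (Partrec.map hW (Computable.const (0 : ℕ)).to₂).of_eq fun a => ?_
    apply Part.ext
    intro y
    simp only [Part.mem_map_iff, Part.mem_assert_iff, Part.mem_some_iff]
    exact ⟨fun ⟨_, ⟨h, _⟩, e⟩ => ⟨h, e.symm⟩, fun ⟨h, e⟩ => ⟨(), ⟨h, trivial⟩, e.symm⟩⟩
  obtain ⟨c, hc⟩ := partrec_code h1
  refine ⟨Encodable.encode c, fun k τ => ?_⟩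
  show (eval (Denumerable.ofNat Code (Encodable.encode c)) (Encodable.encode (k, τ))).Dom ↔ _
  rw [Denumerable.ofNat_encode, Part.dom_iff_mem]
  constructor
  · rintro ⟨y, hy⟩
    obtain ⟨s, hs⟩ := evaln_complete.1 hy
    have := (hc (k, τ) y).2 ⟨s, hs⟩
    exact (Part.mem_assert_iff.1 this).1
  · intro h
    obtain ⟨s, hs⟩ := (hc (k, τ) 0).1 (Part.mem_assert_iff.2 ⟨h, Part.mem_some _⟩)
    exact ⟨0, evaln_sound hs⟩

theorem G_generic : OneGeneric G := by
  intro W hW
  have hW' : REPred fun a : ℕ × List Bool => a.2 ∈ W := Partrec.comp hW Computable.snd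
  obtain ⟨j, hj⟩ := re_index hW'
  have hini : Ini G (dec finf j (fb finf j)) :=
    ini_of_prefix (fb_ext finf_ext j).1 (ini_G (j + 1))
  rcases e : finf j 0 (fb finf j) with _ | τ
  · right
    refine ⟨(fb finf j).length, fun τ hτ hpre => ?_⟩
    rw [ini_seg (ini_G j)] at hpre
    exact finf_none e τ hpre ((hj 0 τ).2 hτ)
  · left
    have hd : dec finf j (fb finf j) = τ := by unfold dec; rw [e]; rfl
    rw [hd] at hini
    exact ⟨τ.length, by rw [ini_seg hini]; exact (hj 0 τ).1 (finf_mem e)⟩

/-- every `Π⁰₂` class containing the generic has a computable member -/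
theorem G_pi2 (W : ℕ × List Bool → Prop) (hW : REPred W)
    (hup : ∀ k σ τ, σ <+: τ → W (k, σ) → W (k, τ)) (hG : ∀ k, ∃ n, W (k, seg G n)) :
    ∃ X : ℕ → Bool, Computable X ∧ ∀ k, ∃ n, W (k, seg X n) := by
  obtain ⟨j, hj⟩ := re_index hW
  by_cases hs : Stuck finf j
  · exfalso
    obtain ⟨s, hs⟩ := hs
    -- the least stuck stage
    classical
    have hex : ∃ s, (run finf j (dec finf j (fb finf j)) s).2 = true := ⟨s, hs⟩
    have h1 := Nat.find_spec hex
    rcases h0 : Nat.find hex with _ | i
    · rw [h0] at h1; exact absurd h1 (by simp [run])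
    · have h2 : (run finf j (dec finf j (fb finf j)) i).2 = false := by
        have := Nat.find_min hex (m := i) (by omega)
        simpa using this
      rw [h0] at h1
      have h3 : finf j i (run finf j (dec finf j (fb finf j)) i).1 = none ∧
          (run finf j (dec finf j (fb finf j)) (i + 1)).1 =
            (run finf j (dec finf j (fb finf j)) i).1 := by
        rw [run_succ] at h1 ⊢
        unfold stp at h1 ⊢
        rw [h2] at h1 ⊢
        rcases e : finf j i (run finf j (dec finf j (fb finf j)) i).1 with _ | τ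
        · exact ⟨rfl, rfl⟩
        · rw [e] at h1; simp at h1
      have hfb : fb finf (j + 1) = (run finf j (dec finf j (fb finf j)) i).1 := by
        rw [fb_stuck h1, h3.2]
      have hini := ini_G (j + 1)
      rw [hfb] at hini
      obtain ⟨n, hn⟩ := hG i
      set ρ := (run finf j (dec finf j (fb finf j)) i).1 with hρ
      have h4 : W (i, seg G (max n ρ.length)) := hup i _ _ (seg_mono G (le_max_left _ _)) hn
      have h5 : ρ <+: seg G (max n ρ.length) := by
        have := seg_mono G (le_max_right n ρ.length)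
        rwa [ini_seg hini] at this
      exact finf_none h3.1 _ h5 ((hj i _).2 h4)
  · obtain ⟨X, hX, _, hV⟩ := point j hs
    refine ⟨X, hX, fun k => ?_⟩
    obtain ⟨n, hn⟩ := hV k
    exact ⟨n, (hj k _).1 hn⟩

/-! ### The generic is not computable -/

theorem seg_comp {β : Type} [Primcodable β] {X : ℕ → β} (hX : Computable X) :
    Computable (seg X) := by
  have h1 : Computable₂ fun (_ : ℕ) (p : ℕ × List β) => p.2 ++ [X p.1] :=
    (Computable.list_append.comp (Computable.snd.comp Computable.snd)
      (Computable.list_cons.comp (hX.comp (Computable.fst.comp Computable.snd))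
        (Computable.const []))).to₂
  refine (Computable.nat_rec Computable.id (Computable.const ([] : List β)) h1).of_eq fun n => ?_
  induction n with
  | zero => rfl
  | succ n ih =>
    rw [seg_succ, ← ih]
    rfl

theorem not_computable_of_generic {X : ℕ → Bool} (hX : OneGeneric X) : ¬ Computable X := by
  intro hc
  have h1 : Computable fun τ : List Bool => !(decide (seg X τ.length = τ)) := by
    have h2 : Primrec₂ fun a b : List Bool => decide (a = b) := Primrec.eq.decide
    exact cnot (h2.to_comp.comp ((seg_comp hc).comp Computable.list_length) Computable.id)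
  have h2 : REPred fun τ : List Bool => τ ∈ {τ : List Bool | seg X τ.length ≠ τ} := by
    refine ComputablePred.to_re ?_
    classical
    refine ComputablePred.computable_iff.2 ⟨_, h1, ?_⟩
    funext τ
    simp
  rcases hX _ h2 with ⟨n, hn⟩ | ⟨n, hn⟩
  · exact hn (by rw [seg_length])
  · refine hn (seg X n ++ [!(X n)]) ?_ (List.prefix_append _ _)
    show seg X (seg X n ++ [!(X n)]).length ≠ seg X n ++ [!(X n)]
    rw [List.length_append, seg_length, List.length_singleton, seg_succ]
    intro h
    have := List.append_cancel_left h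
    simp at this

/-! ### No weakly 2-generic set computes the generic -/

/-- the value of a bit -/
def bit (b : Bool) : ℕ := bif b then 1 else 0

/-- the output of the functional on `τ` is incompatible with the string `ρ` -/
def badb (Φ : List Bool → ℕ → Option ℕ) (τ ρ : List Bool) : Bool :=
  bex ρ.length fun n => Option.casesOn (Φ τ n) false (fun y => !(y == bit (ρ.getD n false)))

theorem badb_iff (Φ : List Bool → ℕ → Option ℕ) (τ ρ : List Bool) :
    badb Φ τ ρ = true ↔ ∃ n < ρ.length, ∃ y, Φ τ n = some y ∧ y ≠ bit (ρ.getD n false) := by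
  unfold badb
  rw [bex_iff]
  refine exists_congr fun n => and_congr_right fun _ => ?_
  rcases Φ τ n with _ | y
  · simp
  · simp

theorem badb_comp {α : Type} [Primcodable α] {Φ : List Bool → ℕ → Option ℕ} (hΦ : Computable₂ Φ)
    {τ ρ : α → List Bool} (hτ : Computable τ) (hρ : Computable ρ) :
    Computable fun a => badb Φ (τ a) (ρ a) := by
  refine bex_comp (Computable.list_length.comp hρ) ?_
  refine Computable.option_casesOn (α := α × ℕ) (o := fun q => Φ (τ q.1) q.2)
    (f := fun _ => false) (g := fun q y => !(y == bit ((ρ q.1).getD q.2 false)))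
    (hΦ.comp (hτ.comp Computable.fst) Computable.snd) (Computable.const false) ?_
  have h1 : Computable fun r : (α × ℕ) × ℕ => (ρ r.1.1).getD r.1.2 false :=
    (Primrec.list_getD false).to_comp.comp (hρ.comp (Computable.fst.comp Computable.fst))
      (Computable.snd.comp Computable.fst)
  exact (cnot (cbeqN Computable.snd (Computable.cond h1 (Computable.const 1)
    (Computable.const 0)))).to₂

/-- the output of the functional on `τ` leaves the closed set of stage `s` -/
def inc (Φ : List Bool → ℕ → Option ℕ) (φ : Op) (s : ℕ) (τ : List Bool) : Bool :=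
  ball s (fun j => (cur φ s j).2 || badb Φ τ (cur φ s j).1) && badb Φ τ (base φ s s)

theorem inc_iff (Φ : List Bool → ℕ → Option ℕ) (φ : Op) (s : ℕ) (τ : List Bool) :
    inc Φ φ s τ = true ↔ (∀ j < s, (cur φ s j).2 = true ∨ badb Φ τ (cur φ s j).1 = true) ∧
      badb Φ τ (base φ s s) = true := by
  unfold inc
  rw [Bool.and_eq_true, ball_iff]
  simp only [Bool.or_eq_true]

theorem all_lt_ev {P : ℕ → ℕ → Prop} (h : ∀ j, ∀ᶠ t in Filter.atTop, P t j) (s : ℕ) :
    ∀ᶠ t in Filter.atTop, ∀ j < s, P t j := by
  induction s with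
  | zero => exact Filter.Eventually.of_forall fun _ j hj => absurd hj (Nat.not_lt_zero j)
  | succ s ih =>
    filter_upwards [ih, h s] with t h1 h2 j hj
    rcases Nat.lt_succ_iff_lt_or_eq.1 hj with h' | rfl
    · exact h1 j h'
    · exact h2

theorem inc_ev (Φ : List Bool → ℕ → Option ℕ) (s : ℕ) (τ : List Bool) :
    ∀ᶠ t in Filter.atTop, inc Φ (find t) s τ = inc Φ finf s τ := by
  filter_upwards [all_lt_ev (P := fun t j => cur (find t) s j = cur finf s j)
    (fun j => cur_ev s j) s, base_ev s s] with t h1 h2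
  rw [Bool.eq_iff_iff, inc_iff, inc_iff, h2]
  refine and_congr_left fun _ => forall₂_congr fun j hj => ?_
  rw [h1 j hj]

/-- no splitting above `τ` -/
def NoSplit (Φ : List Bool → ℕ → Option ℕ) (τ : List Bool) : Prop :=
  ∀ ρ1 ρ2 n y1 y2, Φ (τ ++ ρ1) n = some y1 → Φ (τ ++ ρ2) n = some y2 → y1 = y2

/-- check of one potential splitting -/
def nsb (Φ : List Bool → ℕ → Option ℕ) (τ : List Bool) (b : ℕ) : Bool :=
  Option.casesOn (Encodable.decode (α := List Bool × List Bool × ℕ) b) true
    (fun p => (Φ (τ ++ p.1) p.2.2).isNone || ((Φ (τ ++ p.2.1) p.2.2).isNone ||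
      decide (Φ (τ ++ p.1) p.2.2 = Φ (τ ++ p.2.1) p.2.2)))

theorem nsb_iff (Φ : List Bool → ℕ → Option ℕ) (τ : List Bool) :
    (∀ b, nsb Φ τ b = true) ↔ NoSplit Φ τ := by
  constructor
  · intro h ρ1 ρ2 n y1 y2 e1 e2
    have := h (Encodable.encode (ρ1, ρ2, n))
    unfold nsb at this
    rw [Encodable.encodek] at this
    simp only [e1, e2] at this
    simpa using this
  · intro h b
    unfold nsb
    rcases Encodable.decode (α := List Bool × List Bool × ℕ) b with _ | ⟨ρ1, ρ2, n⟩
    · rfl
    · show ((Φ (τ ++ ρ1) n).isNone || ((Φ (τ ++ ρ2) n).isNone ||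
        decide (Φ (τ ++ ρ1) n = Φ (τ ++ ρ2) n))) = true
      rcases e1 : Φ (τ ++ ρ1) n with _ | y1
      · rfl
      · rcases e2 : Φ (τ ++ ρ2) n with _ | y2
        · rfl
        · rw [h ρ1 ρ2 n y1 y2 e1 e2]; simp

/-- the matrix of the definition of the dense set -/
def Rb (Φ : List Bool → ℕ → Option ℕ) (p : List Bool × ℕ × ℕ) : Bool :=
  Nat.casesOn p.2.1 (nsb Φ p.1 p.2.2)
    (fun a => decide (p.2.2 < a.unpair.2) || inc Φ (find p.2.2) a.unpair.1 p.1)

theorem cisNone {α : Type} [Primcodable α] {f : α → Option ℕ} (hf : Computable f) :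
    Computable fun a => (f a).isNone := by
  have h := cnot ((Primrec.option_isSome.to_comp (α := Option ℕ)).comp hf)
  refine h.of_eq fun a => ?_
  cases f a <;> rfl

theorem inc_comp {α : Type} [Primcodable α] {Φ : List Bool → ℕ → Option ℕ} (hΦ : Computable₂ Φ)
    {t s : α → ℕ} {τ : α → List Bool} (ht : Computable t) (hs : Computable s)
    (hτ : Computable τ) : Computable fun a => inc Φ (find (t a)) (s a) (τ a) := by
  have hc : Computable fun q : α × ℕ => cur (find (t q.1)) (s q.1) q.2 :=
    cur_comp (ht.comp Computable.fst) (hs.comp Computable.fst) Computable.snd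
  have h1 : Computable₂ fun (a : α) (j : ℕ) =>
      (cur (find (t a)) (s a) j).2 || badb Φ (τ a) (cur (find (t a)) (s a) j).1 :=
    (cor (Computable.snd.comp hc) (badb_comp hΦ (hτ.comp Computable.fst)
      (Computable.fst.comp hc))).to₂
  exact cand (ball_comp hs h1) (badb_comp hΦ hτ (base_comp ht hs hs))

theorem nsb_comp {α : Type} [Primcodable α] {Φ : List Bool → ℕ → Option ℕ} (hΦ : Computable₂ Φ)
    {b : α → ℕ} {τ : α → List Bool} (hb : Computable b)
    (hτ : Computable τ) : Computable fun a => nsb Φ (τ a) (b a) := by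
  have h0 : Computable fun r : α × (List Bool × List Bool × ℕ) => τ r.1 :=
    hτ.comp Computable.fst
  have h1 : Computable fun r : α × (List Bool × List Bool × ℕ) => r.2.1 :=
    Computable.fst.comp Computable.snd
  have h2 : Computable fun r : α × (List Bool × List Bool × ℕ) => r.2.2.1 :=
    Computable.fst.comp (Computable.snd.comp Computable.snd)
  have h3 : Computable fun r : α × (List Bool × List Bool × ℕ) => r.2.2.2 :=
    Computable.snd.comp (Computable.snd.comp Computable.snd)
  have g1 : Computable fun r : α × (List Bool × List Bool × ℕ) => Φ (τ r.1 ++ r.2.1) r.2.2.2 :=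
    hΦ.comp (Computable.list_append.comp h0 h1) h3
  have g2 : Computable fun r : α × (List Bool × List Bool × ℕ) => Φ (τ r.1 ++ r.2.2.1) r.2.2.2 :=
    hΦ.comp (Computable.list_append.comp h0 h2) h3
  have h4 : Computable₂ fun (a : α) (p : List Bool × List Bool × ℕ) =>
      (Φ (τ a ++ p.1) p.2.2).isNone || ((Φ (τ a ++ p.2.1) p.2.2).isNone ||
        decide (Φ (τ a ++ p.1) p.2.2 = Φ (τ a ++ p.2.1) p.2.2)) :=
    (cor (cisNone g1) (cor (cisNone g2) (ceqO g1 g2))).to₂
  have h5 : Computable fun a => Encodable.decode (α := List Bool × List Bool × ℕ) (b a) :=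
    Computable.decode.comp hb
  exact (Computable.option_casesOn h5 (Computable.const true) h4).of_eq fun a => rfl

theorem Rb_comp {Φ : List Bool → ℕ → Option ℕ} (hΦ : Computable₂ Φ) : Computable (Rb Φ) := by
  have hτ : Computable fun p : List Bool × ℕ × ℕ => p.1 := Computable.fst
  have ha : Computable fun p : List Bool × ℕ × ℕ => p.2.1 := Computable.fst.comp Computable.snd
  have hb : Computable fun p : List Bool × ℕ × ℕ => p.2.2 := Computable.snd.comp Computable.snd
  have h1 : Computable fun p : List Bool × ℕ × ℕ => nsb Φ p.1 p.2.2 := nsb_comp hΦ hb hτ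
  have hu : Computable fun r : (List Bool × ℕ × ℕ) × ℕ => r.2.unpair :=
    Computable.unpair.comp Computable.snd
  have hu1 : Computable fun r : (List Bool × ℕ × ℕ) × ℕ => r.2.unpair.1 :=
    Computable.fst.comp hu
  have hu2 : Computable fun r : (List Bool × ℕ × ℕ) × ℕ => r.2.unpair.2 :=
    Computable.snd.comp hu
  have hb' : Computable fun r : (List Bool × ℕ × ℕ) × ℕ => r.1.2.2 :=
    hb.comp Computable.fst
  have hτ' : Computable fun r : (List Bool × ℕ × ℕ) × ℕ => r.1.1 := hτ.comp Computable.fst
  have h2 : Computable₂ fun (p : List Bool × ℕ × ℕ) (a : ℕ) =>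
      decide (p.2.2 < a.unpair.2) || inc Φ (find p.2.2) a.unpair.1 p.1 :=
    (cor (clt hb' hu2) (inc_comp hΦ hb' hu1 hτ')).to₂
  exact (Computable.nat_casesOn ha h1 h2).of_eq fun p => rfl

/-- the dense set used against the functional `Φ` -/
def DSet (Φ : List Bool → ℕ → Option ℕ) : Set (List Bool) :=
  {τ | ∃ a, ∀ b, Rb Φ (τ, a, b) = true}

theorem mem_DSet (Φ : List Bool → ℕ → Option ℕ) (τ : List Bool) :
    τ ∈ DSet Φ ↔ (∃ s, inc Φ finf s τ = true) ∨ NoSplit Φ τ := by
  constructor
  · rintro ⟨a, ha⟩
    rcases a with _ | a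
    · right
      exact (nsb_iff Φ τ).1 ha
    · left
      refine ⟨a.unpair.1, ?_⟩
      obtain ⟨t, h1, h2⟩ := ((inc_ev Φ a.unpair.1 τ).and
        (Filter.eventually_ge_atTop a.unpair.2)).exists
      have h3 : (decide (t < a.unpair.2) || inc Φ (find t) a.unpair.1 τ) = true := ha t
      have h4 : decide (t < a.unpair.2) = false := by simpa using h2
      rw [h4, Bool.false_or] at h3
      rw [← h1]; exact h3
  · rintro (⟨s, hs⟩ | h)
    · obtain ⟨t0, h0⟩ := Filter.eventually_atTop.1 (inc_ev Φ s τ)
      refine ⟨Nat.pair s t0 + 1, fun b => ?_⟩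
      show (decide (b < (Nat.pair s t0).unpair.2) ||
        inc Φ (find b) (Nat.pair s t0).unpair.1 τ) = true
      rw [Nat.unpair_pair]
      by_cases hb : b < t0
      · simp [hb]
      · have : inc Φ (find b) s τ = true := by rw [h0 b (Nat.not_lt.1 hb)]; exact hs
        simp [this]
    · exact ⟨0, (nsb_iff Φ τ).2 h⟩

theorem avoid {Φ : List Bool → ℕ → Option ℕ} {σ : List Bool}
    (hs : ∀ τ, σ <+: τ → ¬ NoSplit Φ τ) (Y : ℕ → Bool) (τ : List Bool) (hτ : σ <+: τ) :
    ∃ τ', τ <+: τ' ∧ ∃ n y, Φ τ' n = some y ∧ y ≠ bit (Y n) := by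
  have h := hs τ hτ
  unfold NoSplit at h
  push Not at h
  obtain ⟨ρ1, ρ2, n, y1, y2, e1, e2, hne⟩ := h
  by_cases h1 : y1 = bit (Y n)
  · exact ⟨τ ++ ρ2, List.prefix_append _ _, n, y2, e2, fun h2 => hne (h1.trans h2.symm)⟩
  · exact ⟨τ ++ ρ1, List.prefix_append _ _, n, y1, e1, h1⟩

theorem avoid_list {Φ : List Bool → ℕ → Option ℕ}
    (hm : ∀ σ τ n y, σ <+: τ → Φ σ n = some y → Φ τ n = some y) {σ : List Bool}
    (hs : ∀ τ, σ <+: τ → ¬ NoSplit Φ τ) (Y : ℕ → ℕ → Bool) (τ : List Bool) (hτ : σ <+: τ)
    (m : ℕ) : ∃ τ', τ <+: τ' ∧ ∀ j < m, ∃ n y, Φ τ' n = some y ∧ y ≠ bit (Y j n) := by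
  induction m with
  | zero => exact ⟨τ, List.prefix_rfl, fun j hj => absurd hj (Nat.not_lt_zero j)⟩
  | succ m ih =>
    obtain ⟨τ1, h1, h2⟩ := ih
    obtain ⟨τ2, h3, n, y, e, hne⟩ := avoid hs (Y m) τ1 (hτ.trans h1)
    refine ⟨τ2, h1.trans h3, fun j hj => ?_⟩
    rcases Nat.lt_succ_iff_lt_or_eq.1 hj with h' | rfl
    · obtain ⟨n', y', e', hne'⟩ := h2 j h'
      exact ⟨n', y', hm _ _ _ _ h3 e', hne'⟩
    · exact ⟨n, y, e, hne⟩

theorem bad_of_ini {Φ : List Bool → ℕ → Option ℕ} {τ ρ' ρ : List Bool} {Y : ℕ → Bool} {n y : ℕ}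
    (h1 : Φ τ n = some y) (h2 : y ≠ bit (Y n)) (h3 : Ini Y ρ') (h4 : ρ' <+: ρ)
    (h5 : n < ρ'.length) : badb Φ τ ρ = true := by
  rw [badb_iff]
  obtain ⟨κ, rfl⟩ := h4
  refine ⟨n, by rw [List.length_append]; omega, y, h1, ?_⟩
  rw [List.getD_eq_getElem?_getD, List.getElem?_append_left h5, h3 n h5]
  exact h2

theorem DSet_dense {Φ : List Bool → ℕ → Option ℕ}
    (hm : ∀ σ τ n y, σ <+: τ → Φ σ n = some y → Φ τ n = some y) : IsDense (DSet Φ) := by
  classical
  intro σ
  by_cases hs : ∀ τ, σ <+: τ → ¬ NoSplit Φ τ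
  · obtain ⟨τ0, h0, n0, y0, e0, hne0⟩ := avoid hs G σ List.prefix_rfl
    -- the reals to be avoided
    have hY : ∀ j, ∃ Y : ℕ → Bool, ¬ Stuck finf j →
        ∀ s, Ini Y (run finf j (dec finf j (fb finf j)) s).1 := by
      intro j
      by_cases hj : Stuck finf j
      · exact ⟨G, fun h => absurd hj h⟩
      · obtain ⟨X, _, hX, _⟩ := point j hj
        exact ⟨X, fun _ => hX⟩
    choose Y hY using hY
    obtain ⟨τ, hτ, hav⟩ := avoid_list hm hs Y τ0 h0 (n0 + 1)
    refine ⟨τ, (mem_DSet Φ τ).2 (Or.inl ?_), h0.trans hτ⟩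
    choose! N hN using hav
    -- a large stage
    have ev1 : ∀ᶠ s in Filter.atTop, ∀ j < n0 + 2, base finf s j = fb finf j := by
      obtain ⟨s0, hs0⟩ := base_eventually (φ := finf) (n0 + 1)
      filter_upwards [Filter.eventually_ge_atTop s0] with s h j hj
      exact hs0 s h j (Nat.lt_succ_iff.1 hj)
    have ev2 : ∀ᶠ s in Filter.atTop, ∀ j < n0 + 1, (Stuck finf j →
        (run finf j (dec finf j (fb finf j)) s).2 = true) ∧ N j < s := by
      refine all_lt_ev (P := fun s j => (Stuck finf j →
        (run finf j (dec finf j (fb finf j)) s).2 = true) ∧ N j < s) (fun j => ?_) (n0 + 1)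
      refine Filter.Eventually.and ?_ (Filter.eventually_gt_atTop (N j))
      by_cases hj : Stuck finf j
      · obtain ⟨s1, hs1⟩ := hj
        filter_upwards [Filter.eventually_ge_atTop s1] with s h _
        rw [run_stuck j _ h hs1]; exact hs1
      · exact Filter.Eventually.of_forall fun _ h => absurd h hj
    obtain ⟨s, q1, q2, q3⟩ := (ev1.and (ev2.and (Filter.eventually_ge_atTop (n0 + 1)))).exists
    refine ⟨s, (inc_iff Φ finf s τ).2 ?_⟩
    have e0' : Φ τ n0 = some y0 := hm _ _ _ _ hτ e0
    have hlen : n0 < (fb finf (n0 + 1)).length := fb_length finf_ext (n0 + 1)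
    have hbase : base finf s (n0 + 1) = fb finf (n0 + 1) := q1 (n0 + 1) (by omega)
    constructor
    · intro j hj
      by_cases hjm : j < n0 + 1
      · have hcur : cur finf s j = run finf j (dec finf j (fb finf j)) s := by
          unfold cur; rw [q1 j (by omega)]
        by_cases hst : Stuck finf j
        · left; rw [hcur]; exact (q2 j hjm).1 hst
        · right
          rw [hcur]
          obtain ⟨y, hy, hne⟩ := hN j hjm
          have hact : (run finf j (dec finf j (fb finf j)) s).2 = false := by
            by_contra hcon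
            exact hst ⟨s, by simpa using hcon⟩
          have hl := run_length finf_ext j _ s hact
          exact bad_of_ini hy hne (hY j hst s) List.prefix_rfl ((q2 j hjm).2.trans hl)
      · right
        have h1 : fb finf (n0 + 1) <+: (cur finf s j).1 := by
          rw [← hbase]
          exact (base_mono finf_ext s (Nat.not_lt.1 hjm)).trans (cur_ext finf_ext s j)
        exact bad_of_ini e0' hne0 (ini_G (n0 + 1)) h1 hlen
    · have h1 : fb finf (n0 + 1) <+: base finf s s := by
        rw [← hbase]
        exact base_mono finf_ext s q3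
      exact bad_of_ini e0' hne0 (ini_G (n0 + 1)) h1 hlen
  · push Not at hs
    obtain ⟨τ, hτ, hns⟩ := hs
    exact ⟨τ, (mem_DSet Φ τ).2 (Or.inr hns), hτ⟩

theorem no_w2g_above {H : ℕ → Bool} (hH : WeaklyTwoGeneric H) :
    ¬ degree (chi G) ≤ degree (chi H) := by
  intro hle
  obtain ⟨Φ, hΦ⟩ := exists_approx H (chi G) hle
  obtain ⟨k, hk⟩ := hH (DSet Φ) ⟨Rb Φ, Rb_comp hΦ.comp, fun _ => Iff.rfl⟩ (DSet_dense hΦ.mono)
  rcases (mem_DSet Φ _).1 hk with ⟨s, hs⟩ | hns
  · obtain ⟨h1, h2⟩ := (inc_iff Φ finf s _).1 hs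
    have key : ∀ ρ, Ini G ρ → ¬ badb Φ (seg H k) ρ = true := by
      intro ρ hρ hb
      obtain ⟨n, hn, y, e, hne⟩ := (badb_iff Φ _ ρ).1 hb
      have h3 : chi G n = y := (hΦ.lim n y).2 ⟨k, e⟩
      apply hne
      rw [List.getD_eq_getElem?_getD, hρ n hn, ← h3]
      rfl
    rcases gen_mem finf_ext s s with ⟨i, hi, h3, h4⟩ | h3
    · rcases h1 i hi with h5 | h5
      · rw [h3] at h5; exact absurd h5 (by decide)
      · exact key _ h4 h5
    · rw [h3] at h2
      exact key _ (ini_G s) h2
  · -- the generic would be computable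
    obtain ⟨F, hF, hF2⟩ := search (α := ℕ) (q := fun n m =>
        Option.casesOn (Encodable.decode (α := List Bool) m) false
          (fun ρ => (Φ (seg H k ++ ρ) n).isSome)) (by
        refine Computable.option_casesOn (α := ℕ × ℕ)
          (o := fun q => Encodable.decode (α := List Bool) q.2) (f := fun _ => false)
          (g := fun q ρ => (Φ (seg H k ++ ρ) q.1).isSome)
          (Computable.decode.comp Computable.snd) (Computable.const false) ?_
        exact (Primrec.option_isSome.to_comp.comp (hΦ.comp.comp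
          (Computable.list_append.comp (Computable.const (seg H k)) Computable.snd)
          (Computable.fst.comp Computable.fst))).to₂) (by
        intro n
        obtain ⟨k', hk'⟩ := (hΦ.lim n (chi G n)).1 rfl
        obtain ⟨ρ, hρ⟩ := seg_mono H (le_max_left k k')
        refine ⟨Encodable.encode ρ, ?_⟩
        simp only [Encodable.encodek]
        rw [hρ, hΦ.mono _ _ _ _ (seg_mono H (le_max_right k k')) hk']
        rfl)
    let v : ℕ → ℕ := fun n => (Φ (seg H k ++
      (Encodable.decode (α := List Bool) (F n)).getD []) n).getD 0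
    have hv : Computable v := by
      refine Computable.option_getD ?_ (Computable.const 0)
      exact hΦ.comp.comp (Computable.list_append.comp (Computable.const (seg H k))
        (Computable.option_getD (Computable.decode.comp hF) (Computable.const [])))
        Computable.id
    have hvG : ∀ n, v n = chi G n := by
      intro n
      have h1 := hF2 n
      rcases e : Encodable.decode (α := List Bool) (F n) with _ | ρ
      · rw [e] at h1; exact absurd h1 (by simp)
      · rw [e] at h1
        obtain ⟨y, hy⟩ := Option.isSome_iff_exists.1 h1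
        have h2 : v n = y := by
          show (Φ (seg H k ++ (Encodable.decode (α := List Bool) (F n)).getD []) n).getD 0 = y
          rw [e]
          show (Φ (seg H k ++ ρ) n).getD 0 = y
          rw [hy]; rfl
        obtain ⟨k', hk'⟩ := (hΦ.lim n (chi G n)).1 rfl
        obtain ⟨ρ', hρ'⟩ := seg_mono H (le_max_left k k')
        have h3 : Φ (seg H k ++ ρ') n = some (chi G n) := by
          rw [hρ']; exact hΦ.mono _ _ _ _ (seg_mono H (le_max_right k k')) hk'
        rw [h2]
        exact hns ρ ρ' n y _ hy h3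
    refine not_computable_of_generic G_generic ?_
    have h4 : Computable fun n => (v n == 1) := cbeqN hv (Computable.const 1)
    refine h4.of_eq fun n => ?_
    rw [hvG]
    unfold chi
    cases G n <;> rfl

/-! ### `Π⁰₂` classes in Baire space with a member computable from the generic -/

/-- the list of the first `l` values computed with oracle string `τ` -/
def lst (Φ : List Bool → ℕ → Option ℕ) (τ : List Bool) (l : ℕ) : Option (List ℕ) :=
  Nat.rec (motive := fun _ => Option (List ℕ)) (some [])
    (fun x acc => acc.bind fun L => (Φ τ x).map fun y => L ++ [y]) l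

theorem lst_succ (Φ : List Bool → ℕ → Option ℕ) (τ : List Bool) (l : ℕ) :
    lst Φ τ (l + 1) = (lst Φ τ l).bind fun L => (Φ τ l).map fun y => L ++ [y] := rfl

theorem lst_comp {α : Type} [Primcodable α] {Φ : List Bool → ℕ → Option ℕ} (hΦ : Computable₂ Φ)
    {τ : α → List Bool} {l : α → ℕ} (hτ : Computable τ) (hl : Computable l) :
    Computable fun a => lst Φ (τ a) (l a) := by
  have h1 : Computable₂ fun (a : α) (p : ℕ × Option (List ℕ)) =>
      p.2.bind fun L => (Φ (τ a) p.1).map fun y => L ++ [y] := by
    have g1 : Computable fun q : (α × ℕ × Option (List ℕ)) × List ℕ => Φ (τ q.1.1) q.1.2.1 :=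
      hΦ.comp (hτ.comp (Computable.fst.comp Computable.fst))
        (Computable.fst.comp (Computable.snd.comp Computable.fst))
    have g2 : Computable₂ fun (q : (α × ℕ × Option (List ℕ)) × List ℕ) (y : ℕ) => q.2 ++ [y] :=
      (Computable.list_append.comp (Computable.snd.comp Computable.fst)
        (Computable.list_cons.comp Computable.snd (Computable.const []))).to₂
    have g3 : Computable₂ fun (a : α × ℕ × Option (List ℕ)) (L : List ℕ) =>
        (Φ (τ a.1) a.2.1).map fun y => L ++ [y] := (Computable.option_map g1 g2).to₂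
    have g4 : Computable fun a : α × ℕ × Option (List ℕ) => a.2.2 :=
      Computable.snd.comp Computable.snd
    exact (Computable.option_bind g4 g3).to₂
  exact (Computable.nat_rec hl (Computable.const (some [])) h1).of_eq fun a => rfl

theorem lst_mono {Φ : List Bool → ℕ → Option ℕ}
    (hm : ∀ σ τ n y, σ <+: τ → Φ σ n = some y → Φ τ n = some y) {σ τ : List Bool} (h : σ <+: τ)
    {l : ℕ} {L : List ℕ} (hL : lst Φ σ l = some L) : lst Φ τ l = some L := by
  induction l generalizing L with
  | zero => exact hL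
  | succ l ih =>
    rw [lst_succ] at hL ⊢
    obtain ⟨L', h1, h2⟩ := Option.bind_eq_some_iff.1 hL
    obtain ⟨y, h3, h4⟩ := Option.map_eq_some_iff.1 h2
    rw [ih h1, Option.bind_some, hm _ _ _ _ h h3]
    exact congrArg some h4

/-- `g` is computed by `Φ` from `X` -/
theorem lst_seg {Φ : List Bool → ℕ → Option ℕ}
    (hm : ∀ σ τ n y, σ <+: τ → Φ σ n = some y → Φ τ n = some y) {X : ℕ → Bool} {g : ℕ → ℕ}
    (hg : ∀ n, ∃ k, Φ (seg X k) n = some (g n)) (l : ℕ) :
    ∃ k0, ∀ k, k0 ≤ k → lst Φ (seg X k) l = some (seg g l) := by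
  induction l with
  | zero => exact ⟨0, fun _ _ => rfl⟩
  | succ l ih =>
    obtain ⟨k0, h0⟩ := ih
    obtain ⟨k1, h1⟩ := hg l
    refine ⟨max k0 k1, fun k hk => ?_⟩
    rw [lst_succ, h0 k ((le_max_left _ _).trans hk), Option.bind_some,
      hm _ _ _ _ (seg_mono X ((le_max_right k0 k1).trans hk)) h1, seg_succ]
    rfl

theorem G_baire (Q : ℕ → List ℕ → Bool) (hQ : Computable₂ Q) (g : ℕ → ℕ)
    (hg : degree g ≤ degree (chi G)) (h : ∀ k, ∃ l, Q k (seg g l) = true) :
    ∃ g' : ℕ → ℕ, Computable g' ∧ ∀ k, ∃ l, Q k (seg g' l) = true := by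
  obtain ⟨Φ, hΦ⟩ := exists_approx G g hg
  let wb : ℕ × List Bool → Bool := fun p =>
    (Φ p.2 p.1).isSome && bex (p.2.length + 1) fun l =>
      Option.casesOn (lst Φ p.2 l) false (fun L => Q p.1 L)
  have hwb : Computable wb := by
    refine cand (Primrec.option_isSome.to_comp.comp
      (hΦ.comp.comp Computable.snd Computable.fst)) (bex_comp
        (Computable.succ.comp (Computable.list_length.comp Computable.snd)) ?_)
    have g1 : Computable fun q : (ℕ × List Bool) × ℕ => lst Φ q.1.2 q.2 :=
      lst_comp hΦ.comp (Computable.snd.comp Computable.fst) Computable.snd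
    have g2 : Computable₂ fun (q : (ℕ × List Bool) × ℕ) (L : List ℕ) => Q q.1.1 L :=
      (hQ.comp (Computable.fst.comp (Computable.fst.comp Computable.fst)) Computable.snd).to₂
    exact ((Computable.option_casesOn g1 (Computable.const false) g2).of_eq fun q => rfl).to₂
  have hwb_iff : ∀ k τ, wb (k, τ) = true ↔ (∃ y, Φ τ k = some y) ∧
      ∃ l < τ.length + 1, ∃ L, lst Φ τ l = some L ∧ Q k L = true := by
    intro k τ
    show ((Φ τ k).isSome && bex (τ.length + 1) fun l =>
      Option.casesOn (lst Φ τ l) false (fun L => Q k L)) = true ↔ _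
    rw [Bool.and_eq_true, Option.isSome_iff_exists, bex_iff]
    refine and_congr_right fun _ => exists_congr fun l => and_congr_right fun _ => ?_
    rcases lst Φ τ l with _ | L
    · simp
    · simp
  have hWre : REPred fun p : ℕ × List Bool => wb p = true := by
    refine ComputablePred.to_re (ComputablePred.computable_iff.2 ⟨wb, hwb, rfl⟩)
  obtain ⟨X, hX, hX2⟩ := G_pi2 (fun p => wb p = true) hWre (by
      intro k σ τ hst hw
      rw [hwb_iff] at hw ⊢
      obtain ⟨⟨y, hy⟩, l, hl, L, hL, hq⟩ := hw
      exact ⟨⟨y, hΦ.mono _ _ _ _ hst hy⟩, l, by have := hst.length_le; omega, L,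
        lst_mono hΦ.mono hst hL, hq⟩) (by
      intro k
      obtain ⟨l, hl⟩ := h k
      obtain ⟨k0, h0⟩ := lst_seg hΦ.mono (fun n => (hΦ.lim n (g n)).1 rfl) l
      obtain ⟨k1, h1⟩ := (hΦ.lim k (g k)).1 rfl
      refine ⟨max l (max k0 k1), (hwb_iff _ _).2 ⟨⟨g k, hΦ.mono _ _ _ _ (seg_mono G
        ((le_max_right k0 k1).trans (le_max_right _ _))) h1⟩, l, ?_, seg g l, ?_, hl⟩⟩
      · rw [seg_length]
        exact Nat.lt_succ_of_le (le_max_left _ _)
      · exact h0 _ ((le_max_left k0 k1).trans (le_max_right _ _)))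
  -- the computable function
  obtain ⟨T, hT, hT2⟩ := search (α := ℕ) (q := fun x n => (Φ (seg X n) x).isSome)
    (Primrec.option_isSome.to_comp.comp (hΦ.comp.comp ((seg_comp hX).comp Computable.snd)
      Computable.fst)).to₂ (by
      intro x
      obtain ⟨n, hn⟩ := hX2 x
      obtain ⟨⟨y, hy⟩, _⟩ := (hwb_iff _ _).1 hn
      exact ⟨n, by rw [hy]; rfl⟩)
  let g' : ℕ → ℕ := fun x => (Φ (seg X (T x)) x).getD 0
  have hg' : Computable g' :=
    Computable.option_getD (hΦ.comp.comp ((seg_comp hX).comp hT) Computable.id)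
      (Computable.const 0)
  have hg'2 : ∀ x, Φ (seg X (T x)) x = some (g' x) := by
    intro x
    obtain ⟨y, hy⟩ := Option.isSome_iff_exists.1 (hT2 x)
    show Φ (seg X (T x)) x = some ((Φ (seg X (T x)) x).getD 0)
    rw [hy]; rfl
  refine ⟨g', hg', fun k => ?_⟩
  obtain ⟨n, hn⟩ := hX2 k
  obtain ⟨_, l, hl, L, hL, hq⟩ := (hwb_iff _ _).1 hn
  obtain ⟨k0, h0⟩ := lst_seg hΦ.mono (fun x => ⟨T x, hg'2 x⟩) l
  have h1 := h0 (max n k0) (le_max_right _ _)
  have h2 := lst_mono hΦ.mono (seg_mono X (le_max_left n k0)) hL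
  rw [h1] at h2
  exact ⟨l, by rw [Option.some.inj h2]; exact hq⟩

/-! ### The generic is low for isomorphism -/

/-- application of a finite function given by a list -/
def ap (h : List ℕ) (x : ℕ) : ℕ := h.getD x 0

theorem ap_prim : Primrec₂ ap := Primrec.list_getD 0

theorem ap_seg {s x : ℕ} (f : ℕ → ℕ) (hx : x < s) : ap (seg f s) x = f x := by
  simp [ap, List.getD, seg, hx]

theorem mem_le_encode {x : ℕ} {xs : List ℕ} (h : x ∈ xs) : x ≤ Encodable.encode xs := by
  induction xs with
  | nil => simp at h
  | cons y ys ih =>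
    rw [Encodable.encode_list_cons]
    rcases List.mem_cons.1 h with rfl | h
    · exact (Nat.left_le_pair _ _).trans (Nat.le_succ _)
    · exact ((ih h).trans (Nat.right_le_pair _ _)).trans (Nat.le_succ _)

theorem code_bound {i : ℕ} {xs : List ℕ} {x : ℕ} (hx : x ∈ xs) :
    x ≤ Encodable.encode (i, xs) := by
  have h2 : Encodable.encode (i, xs) = Nat.pair i (Encodable.encode xs) := by
    simp [Encodable.encode_prod_val]
  have h3 := mem_le_encode hx
  have : Encodable.encode xs ≤ Nat.pair i (Encodable.encode xs) := Nat.right_le_pair _ _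
  omega

theorem ball_mem (a : ℕ → Bool) (xs : List ℕ) :
    ball xs.length (fun k => a (ap xs k)) = true ↔ ∀ x ∈ xs, a x = true := by
  rw [ball_iff]
  constructor
  · intro h x hx
    obtain ⟨k, hk, rfl⟩ := List.mem_iff_getElem.1 hx
    have := h k hk
    simpa [ap, List.getD, hk] using this
  · intro h k hk
    have : ap xs k = xs[k] := by simp [ap, List.getD, hk]
    rw [this]
    exact h _ (List.getElem_mem hk)

theorem map_ap_comp {α : Type} [Primcodable α] {f g : α → List ℕ} (hf : Computable f)
    (hg : Computable g) : Computable fun a => (g a).map (ap (f a)) := by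
  have h : Primrec fun p : List ℕ × List ℕ => p.2.map (ap p.1) :=
    Primrec.list_map Primrec.snd (ap_prim.comp (Primrec.fst.comp Primrec.fst) Primrec.snd).to₂
  exact h.to_comp.comp (hf.pair hg)

section iso

variable {L : Lang} (A B : CStr L)

/-- the tuple condition -/
def tupb (sym : ℕ → Bool) (ar : ℕ → ℕ) (i : ℕ) (xs : List ℕ) : Bool :=
  sym i && ((xs.length == ar i) && ball xs.length (fun k => A.U (ap xs k)))

theorem tupb_iff (sym : ℕ → Bool) (ar : ℕ → ℕ) (i : ℕ) (xs : List ℕ) :
    tupb A sym ar i xs = true ↔ sym i = true ∧ xs.length = ar i ∧ ∀ x ∈ xs, A.U x = true := by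
  unfold tupb
  rw [Bool.and_eq_true, Bool.and_eq_true, ball_mem, beq_iff_eq]

/-- the conditions checked for the code `k` on the finite function `h` -/
def Qb (k : ℕ) (h : List ℕ) : Bool :=
  decide (k < h.length) && ((!(A.U k) || B.U (ap h k)) &&
  ((!(A.U k.unpair.1) || (!(A.U k.unpair.2) || (!(ap h k.unpair.1 == ap h k.unpair.2) ||
    (k.unpair.1 == k.unpair.2)))) &&
  ((!(B.U k) || bex h.length (fun x => A.U x && (ap h x == k))) &&
  ((!(tupb A L.isRel L.relAr (Denumerable.ofNat (ℕ × List ℕ) k).1
      (Denumerable.ofNat (ℕ × List ℕ) k).2) ||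
    (A.R (Denumerable.ofNat (ℕ × List ℕ) k).1 (Denumerable.ofNat (ℕ × List ℕ) k).2 ==
      B.R (Denumerable.ofNat (ℕ × List ℕ) k).1
        ((Denumerable.ofNat (ℕ × List ℕ) k).2.map (ap h)))) &&
  (!(tupb A L.isFun L.funAr (Denumerable.ofNat (ℕ × List ℕ) k).1
      (Denumerable.ofNat (ℕ × List ℕ) k).2) ||
    (decide (A.F (Denumerable.ofNat (ℕ × List ℕ) k).1 (Denumerable.ofNat (ℕ × List ℕ) k).2
      < h.length) &&
    (ap h (A.F (Denumerable.ofNat (ℕ × List ℕ) k).1 (Denumerable.ofNat (ℕ × List ℕ) k).2) ==
      B.F (Denumerable.ofNat (ℕ × List ℕ) k).1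
        ((Denumerable.ofNat (ℕ × List ℕ) k).2.map (ap h)))))))))

theorem tupb_comp {α : Type} [Primcodable α] {sym : ℕ → Bool} {ar : ℕ → ℕ}
    (hsym : Computable sym) (har : Computable ar) {i : α → ℕ} {xs : α → List ℕ}
    (hi : Computable i) (hx : Computable xs) :
    Computable fun a => tupb A sym ar (i a) (xs a) := by
  have h1 : Computable₂ fun (a : α) (k : ℕ) => A.U (ap (xs a) k) :=
    (A.U_comp.comp (ap_prim.to_comp.comp (hx.comp Computable.fst) Computable.snd)).to₂
  exact cand (hsym.comp hi) (cand (cbeqN (Computable.list_length.comp hx) (har.comp hi))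
    (ball_comp (Computable.list_length.comp hx) h1))

theorem Qb_comp : Computable₂ (Qb A B) := by
  have hk : Computable fun p : ℕ × List ℕ => p.1 := Computable.fst
  have hh : Computable fun p : ℕ × List ℕ => p.2 := Computable.snd
  have hu := Computable.unpair.comp hk
  have hk1 := Computable.fst.comp hu
  have hk2 := Computable.snd.comp hu
  have hlen := Computable.list_length.comp hh
  have hd : Computable fun p : ℕ × List ℕ => Denumerable.ofNat (ℕ × List ℕ) p.1 :=
    (Computable.ofNat (ℕ × List ℕ)).comp hk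
  have hi := Computable.fst.comp hd
  have hx := Computable.snd.comp hd
  have hm := map_ap_comp hh hx
  have hAF := A.F_comp.comp hi hx
  have c1 := clt hk hlen
  have c2 := cor (cnot (A.U_comp.comp hk)) (B.U_comp.comp (ap_prim.to_comp.comp hh hk))
  have c3 := cor (cnot (A.U_comp.comp hk1)) (cor (cnot (A.U_comp.comp hk2))
    (cor (cnot (cbeqN (ap_prim.to_comp.comp hh hk1) (ap_prim.to_comp.comp hh hk2)))
      (cbeqN hk1 hk2)))
  have c4' : Computable₂ fun (p : ℕ × List ℕ) (x : ℕ) => A.U x && (ap p.2 x == p.1) :=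
    (cand (A.U_comp.comp Computable.snd) (cbeqN (ap_prim.to_comp.comp (hh.comp Computable.fst)
      Computable.snd) (hk.comp Computable.fst))).to₂
  have c4 := cor (cnot (B.U_comp.comp hk)) (bex_comp hlen c4')
  have c5 := cor (cnot (tupb_comp A L.isRel_comp L.relAr_comp hi hx))
    (cbeqB (A.R_comp.comp hi hx) (B.R_comp.comp hi hm))
  have c6 := cor (cnot (tupb_comp A L.isFun_comp L.funAr_comp hi hx))
    (cand (clt hAF hlen) (cbeqN (ap_prim.to_comp.comp hh hAF) (B.F_comp.comp hi hm)))
  have c := cand c1 (cand c2 (cand c3 (cand c4 (cand c5 c6))))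
  exact (c.of_eq fun p => rfl).to₂

theorem Qb_of_iso {f : ℕ → ℕ} (hf : IsIso A B f) (k : ℕ) : ∃ l, Qb A B k (seg f l) = true := by
  obtain ⟨i, xs, hix⟩ : ∃ i xs, Denumerable.ofNat (ℕ × List ℕ) k = (i, xs) := ⟨_, _, rfl⟩
  have hke : k = Encodable.encode (i, xs) := by rw [← hix, Denumerable.encode_ofNat]
  obtain ⟨z, hz⟩ : ∃ z, B.U k = true → (A.U z = true ∧ f z = k) := by
    by_cases h : B.U k = true
    · obtain ⟨z, hz⟩ := hf.surj k h
      exact ⟨z, fun _ => hz⟩
    · exact ⟨0, fun h' => absurd h' h⟩
  refine ⟨k + A.F i xs + z + 1, ?_⟩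
  have hap : ∀ x, x ≤ k → ap (seg f (k + A.F i xs + z + 1)) x = f x := fun x hx =>
    ap_seg f (by omega)
  have hap2 : ap (seg f (k + A.F i xs + z + 1)) (A.F i xs) = f (A.F i xs) := ap_seg f (by omega)
  have hap3 : ap (seg f (k + A.F i xs + z + 1)) z = f z := ap_seg f (by omega)
  have hmap : xs.map (ap (seg f (k + A.F i xs + z + 1))) = xs.map f :=
    List.map_congr_left fun x hx => hap x (by rw [hke]; exact code_bound hx)
  unfold Qb
  rw [hix]
  simp only [Bool.and_eq_true, Bool.or_eq_true, Bool.not_eq_true', decide_eq_true_eq, beq_iff_eq,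
    seg_length, hmap, hap2, hap k le_rfl, hap _ (Nat.unpair_left_le k),
    hap _ (Nat.unpair_right_le k), bex_iff, beq_eq_false_iff_ne]
  refine ⟨by omega, ?_, ?_, ?_, ?_, ?_⟩
  · by_cases h : A.U k = true
    · right; exact hf.maps k h
    · left; simpa using h
  · by_cases h1 : A.U k.unpair.1 = true
    · by_cases h2 : A.U k.unpair.2 = true
      · by_cases h3 : f k.unpair.1 = f k.unpair.2
        · right; right; right; exact hf.inj _ _ h1 h2 h3
        · right; right; left; exact h3
      · right; left; simpa using h2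
    · left; simpa using h1
  · by_cases h : B.U k = true
    · right
      obtain ⟨h1, h2⟩ := hz h
      exact ⟨z, by omega, h1, by rw [hap3]; exact h2⟩
    · left; simpa using h
  · by_cases h : tupb A L.isRel L.relAr i xs = true
    · right
      obtain ⟨h1, h2, h3⟩ := (tupb_iff A _ _ _ _).1 h
      exact hf.rel i xs h1 h2 h3
    · left; simpa using h
  · by_cases h : tupb A L.isFun L.funAr i xs = true
    · right
      obtain ⟨h1, h2, h3⟩ := (tupb_iff A _ _ _ _).1 h
      exact ⟨by omega, hf.func i xs h1 h2 h3⟩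
    · left; simpa using h

theorem iso_of_Qb {f : ℕ → ℕ} (h : ∀ k, ∃ l, Qb A B k (seg f l) = true) : IsIso A B f := by
  have key : ∀ k, ∃ l, k < l ∧ (A.U k = true → B.U (f k) = true) ∧
      (A.U k.unpair.1 = true → A.U k.unpair.2 = true → f k.unpair.1 = f k.unpair.2 →
        k.unpair.1 = k.unpair.2) ∧
      (B.U k = true → ∃ x, A.U x = true ∧ f x = k) ∧
      (tupb A L.isRel L.relAr (Denumerable.ofNat (ℕ × List ℕ) k).1
        (Denumerable.ofNat (ℕ × List ℕ) k).2 = true →
        A.R (Denumerable.ofNat (ℕ × List ℕ) k).1 (Denumerable.ofNat (ℕ × List ℕ) k).2 =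
        B.R (Denumerable.ofNat (ℕ × List ℕ) k).1
          ((Denumerable.ofNat (ℕ × List ℕ) k).2.map f)) ∧
      (tupb A L.isFun L.funAr (Denumerable.ofNat (ℕ × List ℕ) k).1
        (Denumerable.ofNat (ℕ × List ℕ) k).2 = true →
        f (A.F (Denumerable.ofNat (ℕ × List ℕ) k).1 (Denumerable.ofNat (ℕ × List ℕ) k).2) =
        B.F (Denumerable.ofNat (ℕ × List ℕ) k).1
          ((Denumerable.ofNat (ℕ × List ℕ) k).2.map f)) := by
    intro k
    obtain ⟨l, hl⟩ := h k
    obtain ⟨i, xs, hix⟩ : ∃ i xs, Denumerable.ofNat (ℕ × List ℕ) k = (i, xs) := ⟨_, _, rfl⟩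
    have hke : k = Encodable.encode (i, xs) := by rw [← hix, Denumerable.encode_ofNat]
    unfold Qb at hl
    rw [hix] at hl ⊢
    simp only [Bool.and_eq_true, Bool.or_eq_true, Bool.not_eq_true', decide_eq_true_eq,
      beq_iff_eq, seg_length, bex_iff, beq_eq_false_iff_ne] at hl
    obtain ⟨c1, c2, c3, c4, c5, c6⟩ := hl
    have hap : ∀ x, x ≤ k → ap (seg f l) x = f x := fun x hx => ap_seg f (by omega)
    have hmap : xs.map (ap (seg f l)) = xs.map f :=
      List.map_congr_left fun x hx => hap x (by rw [hke]; exact code_bound hx)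
    rw [hap k le_rfl] at c2
    rw [hap _ (Nat.unpair_left_le k), hap _ (Nat.unpair_right_le k)] at c3
    rw [hmap] at c5 c6
    refine ⟨l, c1, fun h1 => ?_, fun h1 h2 h3 => ?_, fun h1 => ?_, fun h1 => ?_, fun h1 => ?_⟩
    · rcases c2 with c | c
      · rw [h1] at c; exact absurd c (by decide)
      · exact c
    · rcases c3 with c | c | c | c
      · rw [h1] at c; exact absurd c (by decide)
      · rw [h2] at c; exact absurd c (by decide)
      · exact absurd h3 c
      · exact c
    · rcases c4 with c | ⟨x, hx, hx1, hx2⟩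
      · rw [h1] at c; exact absurd c (by decide)
      · exact ⟨x, hx1, by rw [ap_seg f hx] at hx2; exact hx2⟩
    · rcases c5 with c | c
      · rw [h1] at c; exact absurd c (by decide)
      · exact c
    · rcases c6 with c | ⟨c, c'⟩
      · rw [h1] at c; exact absurd c (by decide)
      · rw [ap_seg f c] at c'; exact c'
  refine ⟨fun x hx => ?_, fun x y hx hy e => ?_, fun y hy => ?_, fun i xs h1 h2 h3 => ?_,
    fun i xs h1 h2 h3 => ?_⟩
  · obtain ⟨_, _, c, _⟩ := key x
    exact c hx
  · obtain ⟨_, _, _, c, _⟩ := key (Nat.pair x y)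
    rw [Nat.unpair_pair] at c
    exact c hx hy e
  · obtain ⟨_, _, _, _, c, _⟩ := key y
    exact c hy
  · obtain ⟨_, _, _, _, _, c, _⟩ := key (Encodable.encode (i, xs))
    rw [Denumerable.ofNat_encode] at c
    exact c ((tupb_iff A _ _ _ _).2 ⟨h1, h2, h3⟩)
  · obtain ⟨_, _, _, _, _, _, c⟩ := key (Encodable.encode (i, xs))
    rw [Denumerable.ofNat_encode] at c
    exact c ((tupb_iff A _ _ _ _).2 ⟨h1, h2, h3⟩)

end iso

theorem G_low : LowForIsomorphism (degree (chi G)) := by
  rintro L A B ⟨f, hf, hd⟩
  obtain ⟨g, hg, hg2⟩ := G_baire (Qb A B) (Qb_comp A B) f hd (Qb_of_iso A B hf)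
  exact ⟨g, iso_of_Qb A B hg2, hg⟩

/-- There is a Turing degree `d` which is properly 1-generic (it contains a 1-generic set and no
weakly 2-generic set) and low for isomorphism, and which is not computable from any weakly
2-generic set. -/
theorem result : ∃ d : TuringDegree,
    ((∃ X : ℕ → Bool, degree (chi X) = d ∧ OneGeneric X) ∧
      ¬ ∃ X : ℕ → Bool, degree (chi X) = d ∧ WeaklyTwoGeneric X) ∧
    LowForIsomorphism d ∧
    ∀ X : ℕ → Bool, WeaklyTwoGeneric X → ¬ d ≤ degree (chi X) := by
  refine ⟨degree (chi G), ⟨⟨G, rfl, G_generic⟩, ?_⟩, G_low, fun X hX => no_w2g_above hX⟩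
  rintro ⟨X, hX, hX2⟩
  exact no_w2g_above hX2 (le_of_eq hX.symm)

end Pool.Agent.Results.MP_81a968_lc.LowIsoGeneric
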